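import Pool.Agent.L0h32.LT2.Mix

/-!
# The main counting lemma, with errors
-/

set_option autoImplicit false

namespace Pool.Agent.L0h32.LT2

open Finset Pool.Agent.L0h32.LT

variable {n N ρ : ℕ} {W F' : Type} [Field F'] [Fintype F']

/-- The input with the parts `u` on `A`, `v` on `B` and `w` elsewhere. -/
def glue (A B : Finset (Fin n)) (w u v : Inp n) : Inp n :=
  fun i => if i ∈ A then u i else if i ∈ B then v i else w i

omit [Fintype F'] in
theorem blk_glue {A B : Finset (Fin n)} (hAB : Disjoint A B) {w u v : Inp n}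
    (hu : ∀ i, i ∉ A → u i = false) (hv : ∀ i, i ∉ B → v i = false)
    (hw : ∀ i, i ∈ A ∪ B → w i = false) (M : Fin n → (Fin N × Fin 6 × Fin ρ → ZMod 2))
    (e' : (Fin ρ → ZMod 2) → F') (j : Fin N) (c : Fin 6) :
    blk M e' (glue A B w u v) j c = blk M e' u j c + blk M e' w j c + blk M e' v j c := by
  unfold blk
  rw [← sum_add_distrib, ← sum_add_distrib]
  apply sum_congr rfl
  intro i _
  unfold glue
  by_cases hA : i ∈ A
  · have h1 : i ∉ B := disjoint_left.1 hAB hA
    simp [hA, hv i h1, hw i (mem_union_left _ hA)]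
  · by_cases hB : i ∈ B
    · simp [hA, hB, hu i hA, hw i (mem_union_right _ hB)]
    · simp [hA, hB, hu i hA, hv i hB]

/-- The inputs supported on `A`. -/
abbrev Sup (n : ℕ) (A : Finset (Fin n)) : Type := {x : Inp n // ∀ i, i ∉ A → x i = false}

theorem card_sup (A : Finset (Fin n)) : Fintype.card (Sup n A) = 2 ^ A.card := by
  rw [← card_cube A (fun _ => false), Fintype.card_subtype]
  congr 1
  ext x
  rw [mem_filter, mem_cube]
  simp

open Classical in
theorem spread_sup {s : ℕ} {A : Finset (Fin n)} (M : Fin n → (Fin N × Fin 6 × Fin ρ → ZMod 2))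
    (e' : (Fin ρ → ZMod 2) → F')
    (hfib : ∀ (I : Finset (Fin N)) (z : Fin N → (Fin 6 → F')),
      (univ.filter fun x : Inp n => (∀ i, i ∉ A → x i = false) ∧
        ∀ j ∈ I, blk M e' x j = z j).card * Fintype.card F' ^ (6 * I.card) ≤ 2 ^ (A.card + s))
    (d : Fin N → Fin 6 → F') :
    Spread s (fun (x : Sup n A) (j : Fin N) (c : Fin 6) => blk M e' x.1 j c + d j c) := by
  intro I z
  rw [card_sup, ← pow_add, add_comm s]
  refine le_trans (Nat.mul_le_mul_right _ ?_) (hfib I fun j c => z j c - d j c)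
  apply card_le_card_of_injOn (fun x => x.1)
  · intro x hx
    have hx' := (mem_filter.1 (mem_coe.1 hx)).2
    refine mem_coe.2 (mem_filter.2 ⟨mem_univ _, x.2, fun j hj => ?_⟩)
    funext c
    have := congrFun (hx' j hj) c
    dsimp only at this
    rw [← this]
    ring
  · intro x _ y _ hxy
    exact Subtype.ext hxy

open Classical in
theorem class_count (hcor : S_COR) [CharP F' 2] {s Δ m e j r : ℕ}
    {P : Mach n W} {ℓ : ℕ} {v₀ : W} {β : ℕ → W} {F : Fin r → ℕ} {Z : Finset (Fin n)}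
    (M : Fin n → (Fin N × Fin 6 × Fin ρ → ZMod 2)) (e' : (Fin ρ → ZMod 2) → F')
    (hN : 4 ≤ N) (hF : Fintype.card F' = 4 * N) (hF2 : Fintype.card F' = 2 ^ ρ)
    (hΔ : 4 * (s + Δ) ≤ ρ * N)
    (hfib : ∀ A : Finset (Fin n), m ≤ A.card → ∀ (I : Finset (Fin N)) (z : Fin N → (Fin 6 → F')),
      (univ.filter fun x : Inp n => (∀ i, i ∉ A → x i = false) ∧
        ∀ j ∈ I, blk M e' x j = z j).card * Fintype.card F' ^ (6 * I.card) ≤ 2 ^ (A.card + s))
    (hcov : ∀ (x : Inp n) (i : Fin n), (tt P ℓ β r x i).Nonempty)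
    (T : Finset (Inp n))
    (hT : ∀ x ∈ T, (∀ s ≤ r, bd P ℓ v₀ x s = β s) ∧ (Ex P ℓ β F Z j x).card ≤ e ∧
      m ≤ (Lb P ℓ β F Z 0 x).card ∧ m ≤ (Lb P ℓ β F Z 1 x).card)
    (c : Finset (Fin n) × Finset (Fin n) × Inp n) (hc : c ∈ T.image (key P ℓ β F Z 0 1)) :
    2 ^ Δ * (T.filter fun x => key P ℓ β F Z 0 1 x = c).card ≤
      2 ^ Δ * (32 * (univ.filter fun z => ((∀ s ≤ r, bd P ℓ v₀ z s = β s) ∧
        ∃ j, qf (blk M e' z j) = 0) ∧ key P ℓ β F Z 0 1 z = c).card) +
      (2 ^ c.1.card * ((T.filter fun x => key P ℓ β F Z 0 1 x = c).image (rst c.2.1)).card +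
        2 ^ c.2.1.card * ((T.filter fun x => key P ℓ β F Z 0 1 x = c).image (rst c.1)).card) := by
  obtain ⟨x₀, hx₀, hxc⟩ := mem_image.1 hc
  obtain ⟨A, B, w⟩ := c
  have hA : Lb P ℓ β F Z 0 x₀ = A := congrArg Prod.fst hxc
  have hB : Lb P ℓ β F Z 1 x₀ = B := congrArg (fun q => q.2.1) hxc
  have hw : ers (A ∪ B) x₀ = w := by
    have := congrArg (fun q => q.2.2) hxc
    unfold key at this
    dsimp only at this
    rw [hA, hB] at this
    exact this
  dsimp only
  set Tc := T.filter fun x => key P ℓ β F Z 0 1 x = (A, B, w) with hTc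
  have hmem : ∀ x ∈ Tc, x ∈ T ∧ Lb P ℓ β F Z 0 x = A ∧ Lb P ℓ β F Z 1 x = B ∧
      ∀ i, i ∉ A → i ∉ B → x i = w i := by
    intro x hx
    obtain ⟨h1, h2⟩ := mem_filter.1 hx
    have h3 := agree_of_key (h2.trans hxc.symm)
    refine ⟨h1, h3.1.trans hA, h3.2.1.trans hB, fun i hi hi' => ?_⟩
    rw [h3.2.2 i (by rw [h3.1, hA]; exact hi) (by rw [h3.2.1, hB]; exact hi'), ← hw]
    unfold ers
    rw [if_neg (by rw [mem_union]; tauto)]
  have hAB : Disjoint A B := by
    rw [disjoint_left]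
    intro i hi hi'
    rw [← hA] at hi
    rw [← hB] at hi'
    obtain ⟨t, ht⟩ := hcov x₀ i
    have e1 := (mem_filter.1 hi).2 t ht
    have e2 := (mem_filter.1 hi').2 t ht
    omega
  have hmA : m ≤ A.card := by
    have := (hT x₀ hx₀).2.2.1
    rwa [hA] at this
  have hmB : m ≤ B.card := by
    have := (hT x₀ hx₀).2.2.2
    rwa [hB] at this
  have hsuprst : ∀ (C : Finset (Fin n)) (x : Inp n) (i : Fin n), i ∉ C → rst C x i = false := by
    intro C x i hi
    unfold rst
    rw [if_neg hi]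
  -- the rectangle
  set SA : Finset (Sup n A) := univ.filter fun u => u.1 ∈ Tc.image (rst A) with hSA
  set SB : Finset (Sup n B) := univ.filter fun v => v.1 ∈ Tc.image (rst B) with hSB
  have hSAc : SA.card = (Tc.image (rst A)).card := by
    apply card_bij (fun u _ => u.1)
    · intro u hu
      exact (mem_filter.1 hu).2
    · intro u _ u' _ h
      exact Subtype.ext h
    · intro y hy
      obtain ⟨x, hx, rfl⟩ := mem_image.1 hy
      exact ⟨⟨rst A x, hsuprst A x⟩, mem_filter.2 ⟨mem_univ _, hy⟩, rfl⟩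
  have hSBc : SB.card = (Tc.image (rst B)).card := by
    apply card_bij (fun u _ => u.1)
    · intro u hu
      exact (mem_filter.1 hu).2
    · intro u _ u' _ h
      exact Subtype.ext h
    · intro y hy
      obtain ⟨x, hx, rfl⟩ := mem_image.1 hy
      exact ⟨⟨rst B x, hsuprst B x⟩, mem_filter.2 ⟨mem_univ _, hy⟩, rfl⟩
  have hprod : Tc.card ≤ SA.card * SB.card := by
    rw [hSAc, hSBc, ← card_product]
    apply card_le_card_of_injOn (fun x => (rst A x, rst B x))
    · intro x hx
      exact mem_coe.2 (mem_product.2 ⟨mem_image_of_mem _ (mem_coe.1 hx),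
        mem_image_of_mem _ (mem_coe.1 hx)⟩)
    · intro x hx y hy hxy
      obtain ⟨-, -, -, h3⟩ := hmem x (mem_coe.1 hx)
      obtain ⟨-, -, -, h4⟩ := hmem y (mem_coe.1 hy)
      have h5 : rst A x = rst A y := congrArg Prod.fst hxy
      have h6 : rst B x = rst B y := congrArg Prod.snd hxy
      funext i
      by_cases hiA : i ∈ A
      · have := congrFun h5 i
        unfold rst at this
        rwa [if_pos hiA, if_pos hiA] at this
      · by_cases hiB : i ∈ B
        · have := congrFun h6 i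
          unfold rst at this
          rwa [if_pos hiB, if_pos hiB] at this
        · rw [h3 i hiA hiB, h4 i hiA hiB]
  have hws : ∀ i, i ∈ A ∪ B → w i = false := by
    intro i hi
    rw [← hw]
    unfold ers
    rw [if_pos hi]
  -- the corruption
  have hcorr := hcor N ρ s Δ F' (Sup n A) (Sup n B)
    (fun (x : Sup n A) (j : Fin N) (c : Fin 6) => blk M e' x.1 j c + blk M e' w j c)
    (fun (x : Sup n B) (j : Fin N) (c : Fin 6) => blk M e' x.1 j c) hN hF hF2 hΔ
    (spread_sup M e' (hfib A hmA) fun j c => blk M e' w j c)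
    (by
      have := spread_sup M e' (hfib B hmB) fun _ _ => (0 : F')
      simp only [add_zero] at this
      exact this) SA SB
  have hhits : (hits SA SB
      (fun (x : Sup n A) (j : Fin N) (c : Fin 6) => blk M e' x.1 j c + blk M e' w j c)
      (fun (x : Sup n B) (j : Fin N) (c : Fin 6) => blk M e' x.1 j c)).card ≤
      (univ.filter fun z => ((∀ s ≤ r, bd P ℓ v₀ z s = β s) ∧
        ∃ j, qf (blk M e' z j) = 0) ∧ key P ℓ β F Z 0 1 z = (A, B, w)).card := by
    apply card_le_card_of_injOn (fun p => glue A B w p.1.1 p.2.1)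
    · rintro ⟨u, v⟩ hp
      obtain ⟨hp1, hp2⟩ := mem_filter.1 (mem_coe.1 hp)
      obtain ⟨hu, hv⟩ := mem_product.1 hp1
      obtain ⟨x, hx, hxu⟩ := mem_image.1 (mem_filter.1 hu).2
      obtain ⟨y, hy, hyv⟩ := mem_image.1 (mem_filter.1 hv).2
      obtain ⟨hxT, hxA, hxB, hxw⟩ := hmem x hx
      obtain ⟨hyT, hyA, hyB, hyw⟩ := hmem y hy
      have hglue : glue A B w u.1 v.1 = mix (Lb P ℓ β F Z 1 x) x y := by
        funext i
        unfold glue mix
        rw [hxB, ← hxu, ← hyv]
        unfold rst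
        by_cases hiA : i ∈ A
        · have hiB : i ∉ B := disjoint_left.1 hAB hiA
          rw [if_pos hiA, if_pos hiA, if_neg hiB]
        · by_cases hiB : i ∈ B
          · rw [if_neg hiA, if_pos hiB, if_pos hiB, if_pos hiB]
          · rw [if_neg hiA, if_neg hiB, if_neg hiB, hxw i hiA hiB]
      have hagree : ∀ i, i ∉ A → i ∉ B → x i = y i := fun i hi hi' => by
        rw [hxw i hi hi', hyw i hi hi']
      have hzx : ∀ i, i ∉ B → mix (Lb P ℓ β F Z 1 x) x y i = x i := by
        intro i hi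
        unfold mix
        rw [hxB, if_neg hi]
      have hzy : ∀ i, i ∉ A → mix (Lb P ℓ β F Z 1 x) x y i = y i := by
        intro i hi
        unfold mix
        rw [hxB]
        split_ifs with hi'
        · rfl
        · exact hagree i hi hi'
      have hz1 : Lb P ℓ β F Z 1 x = Lb P ℓ β F Z 1 (mix (Lb P ℓ β F Z 1 x) x y) :=
        Lb_eq fun i hi _ => (hzx i (by rw [← hxB]; exact hi)).symm
      have hz0 : Lb P ℓ β F Z 0 y = Lb P ℓ β F Z 0 (mix (Lb P ℓ β F Z 1 x) x y) :=
        Lb_eq fun i hi _ => (hzy i (by rw [← hyA]; exact hi)).symm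
      refine mem_coe.2 (mem_filter.2 ⟨mem_univ _, ⟨?_, ?_⟩, ?_⟩)
      · dsimp only
        rw [hglue]
        exact bd_mix (hT x hxT).1 (hT y hyT).1 (hxA.trans hyA.symm)
          (fun i hi hi' => hagree i (by rw [← hxA]; exact hi) (by rw [← hxB]; exact hi'))
      · obtain ⟨j, hj⟩ := hp2
        refine ⟨j, ?_⟩
        rw [← hj]
        congr 1
        funext c
        exact blk_glue hAB u.2 v.2 hws M e' j c
      · dsimp only
        rw [hglue, ← hxc]
        apply key_of_agree
        · rw [← hz0, hyA, hA]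
        · rw [← hz1, hxB, hB]
        · intro i hi hi'
          rw [← hz0, hyA] at hi
          rw [← hz1, hxB] at hi'
          rw [hzx i hi', hxw i hi hi', ← hw]
          unfold ers
          rw [if_neg (by rw [mem_union]; tauto)]
    · rintro ⟨u, v⟩ _ ⟨u', v'⟩ _ h
      have h' : glue A B w u.1 v.1 = glue A B w u'.1 v'.1 := h
      refine Prod.ext (Subtype.ext ?_) (Subtype.ext ?_)
      · funext i
        show u.1 i = u'.1 i
        by_cases hi : i ∈ A
        · have := congrFun h' i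
          unfold glue at this
          rwa [if_pos hi, if_pos hi] at this
        · rw [u.2 i hi, u'.2 i hi]
      · funext i
        show v.1 i = v'.1 i
        by_cases hi : i ∈ B
        · have := congrFun h' i
          unfold glue at this
          have hiA : i ∉ A := fun hiA => disjoint_left.1 hAB hiA hi
          rwa [if_neg hiA, if_neg hiA, if_pos hi, if_pos hi] at this
        · rw [v.2 i hi, v'.2 i hi]
  rw [card_sup, card_sup] at hcorr
  calc 2 ^ Δ * Tc.card ≤ 2 ^ Δ * (SA.card * SB.card) := Nat.mul_le_mul_left _ hprod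
    _ ≤ _ := hcorr
    _ ≤ _ := by
      rw [hSAc, hSBc]
      have h1 := Nat.mul_le_mul_left (2 ^ Δ) (Nat.mul_le_mul_left 32 hhits)
      have h2 : (Tc.image (rst A)).card * 2 ^ B.card = 2 ^ B.card * (Tc.image (rst A)).card :=
        mul_comm _ _
      rw [h2]
      exact Nat.add_le_add_right h1 _

open Classical in
/-- **The main counting lemma, with errors.** -/
theorem mix_count (hcor : S_COR) [CharP F' 2] {s Δ m e j r : ℕ}
    {P : Mach n W} {ℓ : ℕ} {v₀ : W} {β : ℕ → W} {F : Fin r → ℕ} {Z : Finset (Fin n)}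
    (M : Fin n → (Fin N × Fin 6 × Fin ρ → ZMod 2)) (e' : (Fin ρ → ZMod 2) → F')
    (hN : 4 ≤ N) (hF : Fintype.card F' = 4 * N) (hF2 : Fintype.card F' = 2 ^ ρ)
    (hΔ : 4 * (s + Δ) ≤ ρ * N)
    (hfib : ∀ A : Finset (Fin n), m ≤ A.card → ∀ (I : Finset (Fin N)) (z : Fin N → (Fin 6 → F')),
      (univ.filter fun x : Inp n => (∀ i, i ∉ A → x i = false) ∧
        ∀ j ∈ I, blk M e' x j = z j).card * Fintype.card F' ^ (6 * I.card) ≤ 2 ^ (A.card + s))
    (hcov : ∀ (x : Inp n) (i : Fin n), (tt P ℓ β r x i).Nonempty)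
    (T : Finset (Inp n))
    (hT : ∀ x ∈ T, (∀ s ≤ r, bd P ℓ v₀ x s = β s) ∧ (Ex P ℓ β F Z j x).card ≤ e ∧
      m ≤ (Lb P ℓ β F Z 0 x).card ∧ m ≤ (Lb P ℓ β F Z 1 x).card) :
    2 ^ Δ * T.card ≤ 2 ^ Δ * (32 * (univ.filter fun z => (∀ s ≤ r, bd P ℓ v₀ z s = β s) ∧
        ∃ j, qf (blk M e' z j) = 0).card) + 2 * ((Idx n e).card * 2 ^ n) := by
  have hdis : ∀ x : Inp n, Disjoint (Lb P ℓ β F Z 0 x) (Lb P ℓ β F Z 1 x) := by
    intro x
    rw [disjoint_left]
    intro i hi hi'
    obtain ⟨t, ht⟩ := hcov x i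
    have e1 := (mem_filter.1 hi).2 t ht
    have e2 := (mem_filter.1 hi').2 t ht
    omega
  set C := T.image (key P ℓ β F Z 0 1) with hC
  have h1 : T.card = ∑ c ∈ C, (T.filter fun x => key P ℓ β F Z 0 1 x = c).card :=
    card_eq_sum_card_image _ _
  have h2 := cover (P := P) (ℓ := ℓ) (β := β) (F := F) (Z := Z) (j := j) (e := e)
    (a := 0) (b := 1) (Or.inl ⟨rfl, rfl⟩) T (fun x hx => (hT x hx).2.1) fun x _ => hdis x
  have h3 := cover (P := P) (ℓ := ℓ) (β := β) (F := F) (Z := Z) (j := j) (e := e)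
    (a := 1) (b := 0) (Or.inr ⟨rfl, rfl⟩) T (fun x hx => (hT x hx).2.1) fun x _ => (hdis x).symm
  have h4 : ∑ c ∈ T.image (key P ℓ β F Z 1 0), 2 ^ c.1.card *
      ((T.filter fun x => key P ℓ β F Z 1 0 x = c).image (rst c.2.1)).card =
      ∑ c ∈ C, 2 ^ c.2.1.card *
        ((T.filter fun x => key P ℓ β F Z 0 1 x = c).image (rst c.1)).card := by
    have hswap : ∀ x, key P ℓ β F Z 1 0 x = ((key P ℓ β F Z 0 1 x).2.1,
        (key P ℓ β F Z 0 1 x).1, (key P ℓ β F Z 0 1 x).2.2) := by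
      intro x
      unfold key
      rw [union_comm]
    have himg : T.image (key P ℓ β F Z 1 0) = C.image fun c => (c.2.1, c.1, c.2.2) := by
      rw [hC, image_image]
      apply image_congr
      intro x _
      exact hswap x
    rw [himg, sum_image]
    · apply sum_congr rfl
      intro c _
      dsimp only
      congr 3
      apply filter_congr
      intro x _
      rw [hswap x]
      constructor
      · intro h
        have e1 := congrArg Prod.fst h
        have e2 := congrArg (fun q => q.2.1) h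
        have e3 := congrArg (fun q => q.2.2) h
        exact Prod.ext e2 (Prod.ext e1 e3)
      · intro h
        rw [h]
    · intro c _ c' _ h
      have e1 := congrArg Prod.fst h
      have e2 := congrArg (fun q => q.2.1) h
      have e3 := congrArg (fun q => q.2.2) h
      exact Prod.ext e2 (Prod.ext e1 e3)
  rw [h4] at h3
  have h5 : ∑ c ∈ C, (univ.filter fun z => ((∀ s ≤ r, bd P ℓ v₀ z s = β s) ∧
        ∃ j, qf (blk M e' z j) = 0) ∧ key P ℓ β F Z 0 1 z = c).card ≤
      (univ.filter fun z => (∀ s ≤ r, bd P ℓ v₀ z s = β s) ∧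
        ∃ j, qf (blk M e' z j) = 0).card := by
    have h6 : ∀ c ∈ C, (univ.filter fun z => ((∀ s ≤ r, bd P ℓ v₀ z s = β s) ∧
        ∃ j, qf (blk M e' z j) = 0) ∧ key P ℓ β F Z 0 1 z = c) =
        ((univ.filter fun z => (∀ s ≤ r, bd P ℓ v₀ z s = β s) ∧
          ∃ j, qf (blk M e' z j) = 0).filter fun z => key P ℓ β F Z 0 1 z = c) := by
      intro c _
      rw [filter_filter]
    rw [sum_congr rfl fun c hc => by rw [h6 c hc]]
    generalize (univ.filter fun z => (∀ s ≤ r, bd P ℓ v₀ z s = β s) ∧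
          ∃ j, qf (blk M e' z j) = 0) = G
    rw [sum_congr rfl fun c (_ : c ∈ C) => card_filter (fun z => key P ℓ β F Z 0 1 z = c) G,
      sum_comm, card_eq_sum_ones]
    apply sum_le_sum
    intro z _
    rw [sum_ite_eq]
    split_ifs <;> simp
  calc 2 ^ Δ * T.card = ∑ c ∈ C, 2 ^ Δ * (T.filter fun x => key P ℓ β F Z 0 1 x = c).card := by
        rw [h1, mul_sum]
    _ ≤ ∑ c ∈ C, (2 ^ Δ * (32 * (univ.filter fun z => ((∀ s ≤ r, bd P ℓ v₀ z s = β s) ∧
        ∃ j, qf (blk M e' z j) = 0) ∧ key P ℓ β F Z 0 1 z = c).card) +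
      (2 ^ c.1.card * ((T.filter fun x => key P ℓ β F Z 0 1 x = c).image (rst c.2.1)).card +
        2 ^ c.2.1.card * ((T.filter fun x => key P ℓ β F Z 0 1 x = c).image (rst c.1)).card)) :=
        sum_le_sum fun c hc => class_count hcor M e' hN hF hF2 hΔ hfib hcov T hT c hc
    _ = 2 ^ Δ * (32 * ∑ c ∈ C, (univ.filter fun z => ((∀ s ≤ r, bd P ℓ v₀ z s = β s) ∧
        ∃ j, qf (blk M e' z j) = 0) ∧ key P ℓ β F Z 0 1 z = c).card) +
        (∑ c ∈ C, 2 ^ c.1.card *
          ((T.filter fun x => key P ℓ β F Z 0 1 x = c).image (rst c.2.1)).card +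
        ∑ c ∈ C, 2 ^ c.2.1.card *
          ((T.filter fun x => key P ℓ β F Z 0 1 x = c).image (rst c.1)).card) := by
        rw [sum_add_distrib, sum_add_distrib, mul_sum, mul_sum]
    _ ≤ _ := by
      have h7 := Nat.mul_le_mul_left (2 ^ Δ) (Nat.mul_le_mul_left 32 h5)
      have h8 : ∑ c ∈ C, 2 ^ c.1.card *
          ((T.filter fun x => key P ℓ β F Z 0 1 x = c).image (rst c.2.1)).card +
        ∑ c ∈ C, 2 ^ c.2.1.card *
          ((T.filter fun x => key P ℓ β F Z 0 1 x = c).image (rst c.1)).card ≤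
          2 * ((Idx n e).card * 2 ^ n) := by
        rw [two_mul]
        exact Nat.add_le_add h2 h3
      exact Nat.add_le_add h7 h8

end Pool.Agent.L0h32.LT2
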