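import Mathlib

/-!
# Numerical facts
-/

set_option autoImplicit false

namespace Pool.Agent.L0h32.LT2

theorem final_num2 {n D r R b e E Δ L A : ℕ} (hD1 : 1 ≤ D) (hn0 : 0 < n)
    (hn : 8192 * D * (L + 1) ≤ n) (hΔ : n < 192 * D * A) (hΔ' : A < 8 * (Δ + 1)) (hr : r ≤ R + 1)
    (hb1 : 2 ^ b = 2 ^ 15 * D) (hb2 : 2 ^ 17 * b ≤ E) (he2 : E * D * e ≤ 16 * n)
    (hcore : (Δ : ℝ) ≤ (L : ℝ) + (0 : ℕ) + (r + 1) * (1 / (8192 * D * (R + 2)) * n) +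
      b * e + 4 * n / 2 ^ b) : False := by
  have hDr : (0 : ℝ) < D := by exact_mod_cast hD1
  have hnr : (0 : ℝ) < n := by exact_mod_cast hn0
  obtain ⟨u, hu⟩ : ∃ u : ℝ, u = n / (8192 * D) := ⟨_, rfl⟩
  have hu0 : n = u * (8192 * D) := by
    rw [hu]
    field_simp
  have hu1 : (L : ℝ) + 1 ≤ u := by
    rw [hu, le_div_iff₀ (by positivity)]
    have : ((8192 * D * (L + 1) : ℕ) : ℝ) ≤ n := by exact_mod_cast hn
    push_cast at this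
    linarith
  have hu2 : 5 * u < Δ + 1 := by
    have h1 : n < 1536 * D * (Δ + 1) := by
      calc n < 192 * D * A := hΔ
        _ ≤ 192 * D * (8 * (Δ + 1)) := Nat.mul_le_mul_left _ hΔ'.le
        _ = 1536 * D * (Δ + 1) := by ring
    have h2 : (n : ℝ) < 1536 * D * (Δ + 1) := by exact_mod_cast h1
    rw [hu0] at h2
    have h3 : D * (8192 * u) < D * (1536 * ((Δ : ℝ) + 1)) := by linarith
    have h4 : 8192 * u < 1536 * ((Δ : ℝ) + 1) := lt_of_mul_lt_mul_left h3 hDr.le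
    have : 0 ≤ u := by
      rw [hu]
      positivity
    linarith
  have hu3 : ((r : ℝ) + 1) * (1 / (8192 * D * (R + 2)) * n) ≤ u := by
    have h1 : (r : ℝ) + 1 ≤ R + 2 := by
      have : ((r : ℕ) : ℝ) ≤ ((R + 1 : ℕ) : ℝ) := by exact_mod_cast hr
      push_cast at this
      linarith
    calc ((r : ℝ) + 1) * (1 / (8192 * D * (R + 2)) * n) ≤
        ((R : ℝ) + 2) * (1 / (8192 * D * (R + 2)) * n) :=
          mul_le_mul_of_nonneg_right h1 (by positivity)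
      _ = u := by
        rw [hu]
        field_simp
  have hu4 : (b : ℝ) * e ≤ u := by
    have h1 : ((2 ^ 17 * b * (D * e) : ℕ) : ℝ) ≤ ((16 * n : ℕ) : ℝ) := by
      have : 2 ^ 17 * b * (D * e) ≤ 16 * n := by
        calc 2 ^ 17 * b * (D * e) ≤ E * (D * e) := Nat.mul_le_mul_right _ hb2
          _ = E * D * e := by ring
          _ ≤ 16 * n := he2
      exact_mod_cast this
    push_cast at h1
    rw [hu, le_div_iff₀ (by positivity)]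
    linarith
  have hu5 : 4 * (n : ℝ) / 2 ^ b = u := by
    have h1 : (2 : ℝ) ^ b = 2 ^ 15 * D := by exact_mod_cast hb1
    rw [h1, hu]
    field_simp
    norm_num
  rw [Nat.cast_zero, add_zero, hu5] at hcore
  linarith

/-- The choice of the size of the field. -/
theorem exists_rho {n D s : ℕ} (hD1 : 1 ≤ D) (hn : 48 * D * ((s + 4) * 2 ^ (s + 2)) ≤ n) :
    ∃ ρ, s + 4 ≤ ρ ∧ 48 * D * (ρ * 2 ^ (ρ - 2)) ≤ n ∧ n < 192 * D * (ρ * 2 ^ (ρ - 2)) := by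
  have hpow : 0 < 2 ^ (s + 2) := by positivity
  have hn1 : s + 4 ≤ n := by
    refine le_trans ?_ hn
    calc s + 4 = 1 * 1 * ((s + 4) * 1) := by ring
      _ ≤ 48 * D * ((s + 4) * 2 ^ (s + 2)) :=
        Nat.mul_le_mul (Nat.mul_le_mul (by norm_num) hD1) (Nat.mul_le_mul_left _ hpow)
  obtain ⟨ρ, hρ⟩ : ∃ ρ, ρ = Nat.findGreatest (fun ρ => 48 * D * (ρ * 2 ^ (ρ - 2)) ≤ n) n := ⟨_, rfl⟩
  have h1 : 48 * D * (ρ * 2 ^ (ρ - 2)) ≤ n := by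
    rw [hρ]
    exact Nat.findGreatest_spec (P := fun ρ => 48 * D * (ρ * 2 ^ (ρ - 2)) ≤ n) hn1
      (by simpa using hn)
  have h2 : s + 4 ≤ ρ := by
    rw [hρ]
    exact Nat.le_findGreatest hn1 (by simpa using hn)
  refine ⟨ρ, h2, h1, ?_⟩
  have h3 : ρ < n := by
    have hp : 0 < 2 ^ (ρ - 2) := by positivity
    calc ρ < 48 * 1 * (ρ * 1) := by omega
      _ ≤ 48 * D * (ρ * 2 ^ (ρ - 2)) :=
        Nat.mul_le_mul (Nat.mul_le_mul_left _ hD1) (Nat.mul_le_mul_left _ hp)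
      _ ≤ n := h1
  have h4 : ¬ 48 * D * ((ρ + 1) * 2 ^ (ρ + 1 - 2)) ≤ n := by
    rw [hρ]
    exact Nat.findGreatest_is_greatest (P := fun ρ => 48 * D * (ρ * 2 ^ (ρ - 2)) ≤ n)
      (Nat.lt_succ_self _) (by rw [← hρ]; exact h3)
  push Not at h4
  refine h4.trans_le ?_
  have h5 : 2 ^ (ρ + 1 - 2) = 2 * 2 ^ (ρ - 2) := by
    rw [← pow_succ']
    congr 1
    omega
  rw [h5]
  have h6 : (ρ + 1) * (2 * 2 ^ (ρ - 2)) ≤ 4 * (ρ * 2 ^ (ρ - 2)) := by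
    have : (ρ + 1) * 2 ≤ 4 * ρ := by omega
    calc (ρ + 1) * (2 * 2 ^ (ρ - 2)) = (ρ + 1) * 2 * 2 ^ (ρ - 2) := by ring
      _ ≤ 4 * ρ * 2 ^ (ρ - 2) := Nat.mul_le_mul_right _ this
      _ = _ := by ring
  calc 48 * D * ((ρ + 1) * (2 * 2 ^ (ρ - 2))) ≤ 48 * D * (4 * (ρ * 2 ^ (ρ - 2))) :=
        Nat.mul_le_mul_left _ h6
    _ = _ := by ring

/-- The number of repetitions. -/
theorem exists_rep (k : ℕ) : ∃ r : ℕ, 1 ≤ r ∧
    (((2 ^ 21 * (2 * (r * k + 2)) ^ 5 : ℕ) : ℝ)) * (19 / 20) ^ r ≤ 1 := by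
  have h1 : Filter.Tendsto (fun r : ℕ => (r : ℝ) ^ 5 * (19 / 20 : ℝ) ^ r) Filter.atTop (nhds 0) :=
    tendsto_pow_const_mul_const_pow_of_abs_lt_one 5 (by rw [abs_of_pos] <;> norm_num)
  have hpos : (0 : ℝ) < 1 / (2 ^ 21 * (2 * (k + 2)) ^ 5) := by positivity
  have h2 := h1.eventually (gt_mem_nhds hpos)
  obtain ⟨r, hr, hr1⟩ := (h2.and (Filter.eventually_ge_atTop 1)).exists
  refine ⟨r, hr1, ?_⟩
  rw [lt_div_iff₀ (by positivity)] at hr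
  have h3 : (((2 ^ 21 * (2 * (r * k + 2)) ^ 5 : ℕ) : ℝ)) ≤
      2 ^ 21 * (2 * (k + 2)) ^ 5 * (r : ℝ) ^ 5 := by
    have h4 : 2 ^ 21 * (2 * (r * k + 2)) ^ 5 ≤ 2 ^ 21 * (2 * (k + 2) * r) ^ 5 := by
      apply Nat.mul_le_mul_left
      apply Nat.pow_le_pow_left
      nlinarith
    calc (((2 ^ 21 * (2 * (r * k + 2)) ^ 5 : ℕ) : ℝ)) ≤ ((2 ^ 21 * (2 * (k + 2) * r) ^ 5 : ℕ) : ℝ) := by
          exact_mod_cast h4
      _ = _ := by
        push_cast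
        ring
  calc _ ≤ (2 ^ 21 * (2 * (k + 2)) ^ 5 * (r : ℝ) ^ 5) * (19 / 20) ^ r :=
        mul_le_mul_of_nonneg_right h3 (by positivity)
    _ = (r : ℝ) ^ 5 * (19 / 20 : ℝ) ^ r * (2 ^ 21 * (2 * (k + 2)) ^ 5) := by ring
    _ ≤ 1 := hr.le

end Pool.Agent.L0h32.LT2
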