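import Pool.Agent.L0h32.LT2.Seq
import Pool.Agent.L0h32.LT2.Num2
import Pool.Agent.L0h32.LT.Fin

/-!
# Assembly
-/

set_option autoImplicit false

namespace Pool.Agent.L0h32.LT2

open Finset Pool.Agent.L0h32.LT

variable {n : ℕ}

/-- The function `f` has a one-pass nondeterministic program with `ρ` guesses and at most `B`
memory states. -/
def NonP (n ρ B : ℕ) (f : Inp n → Bool) : Prop :=
  ∃ (V : Type) (_ : Finite V) (start : (Fin ρ → Bool) → V) (next : Fin n → V → Bool → V)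
    (acc : V → Prop), Nat.card V ≤ B ∧ ∀ x : Inp n, f x = true ↔
      ∃ ω, acc ((List.finRange n).foldl (fun v i => next i v (x i)) (start ω))

theorem nonP_mono {ρ ρ' B B' : ℕ} {f : Inp n → Bool} (hρ : ρ ≤ ρ') (hB : B ≤ B')
    (h : NonP n ρ B f) : NonP n ρ' B' f := by
  obtain ⟨V, hV, start, next, acc, h1, h2⟩ := h
  refine ⟨V, hV, fun ω => start fun i => ω (Fin.castLE hρ i), next, acc, h1.trans hB, fun x => ?_⟩
  rw [h2 x]
  constructor
  · rintro ⟨ω, hω⟩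
    refine ⟨fun i => if h : (i : ℕ) < ρ then ω ⟨i, h⟩ else false, ?_⟩
    have : (fun i : Fin ρ => (fun i : Fin ρ' => if h : (i : ℕ) < ρ then ω ⟨i, h⟩ else false)
        (Fin.castLE hρ i)) = ω := by
      funext i
      dsimp only
      rw [dif_pos (by simp)]
      rfl
    have h3 : start (fun i : Fin ρ => (fun i : Fin ρ' => if h : (i : ℕ) < ρ then ω ⟨i, h⟩
        else false) (Fin.castLE hρ i)) = start ω := congrArg start this
    exact (congrArg (fun v => acc ((List.finRange n).foldl (fun v i => next i v (x i)) v))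
      h3).mpr hω
  · rintro ⟨ω, hω⟩
    exact ⟨_, hω⟩

/-- **Assembly.** -/
theorem asm2 (hsel : S_SEL2) (hcor : S_COR) (hzer : S_ZER) (hfib : S_FIB) (hnon : S_NON)
    (hpar : S_PAR2) (hrnk : S_RNK) (hcnt : S_CNT) (k : ℕ) :
    ∃ γ : ℝ, 0 < γ ∧ ∃ n₀ : ℕ, ∀ n ≥ n₀, ∃ f : Inp n → Bool,
      NonP n (Nat.log 2 n) (n ^ 7) f ∧
      HardM n (k * n) (2 ^ 21 * (2 * (k + 2)) ^ 5) (2 ^ (γ * n)) f := by
  classical
  set k' := k + 2 with hk'
  obtain ⟨y, hy1, hy2⟩ := hpar (2 * k') (by omega)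
  obtain ⟨d, hd⟩ : ∃ d, d = dex (2 * k') y := ⟨_, rfl⟩
  rw [← hd] at hy1 hy2
  obtain ⟨D, hD⟩ : ∃ D, D = 2 ^ d := ⟨_, rfl⟩
  have hD1 : 1 ≤ D := by
    rw [hD]
    exact Nat.one_le_two_pow
  obtain ⟨Lc, hLc⟩ : ∃ Lc, Lc = 2 * (2 * k') * (2 * k') * (d + 1) := ⟨_, rfl⟩
  obtain ⟨R, hR⟩ : ∃ R, R = (k + 1) * (256 * D * (2 * k')) := ⟨_, rfl⟩
  obtain ⟨s, hs⟩ : ∃ s, s = 4 * D := ⟨_, rfl⟩
  refine ⟨1 / (8192 * D * (R + 2)), by positivity,
    48 * D * ((s + 4) * 2 ^ (s + 2)) + 8192 * D * (16 * Lc + 1) + 384 * D * (4 * D + 1) +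
      128 * D * (2 * k') + 192 * D * (8 * s), fun n hn => ?_⟩
  have hn1 : 48 * D * ((s + 4) * 2 ^ (s + 2)) ≤ n := by omega
  have hn2 : 8192 * D * (16 * Lc + 1) ≤ n := by omega
  have hn3 : 384 * D * (4 * D + 1) ≤ n := by omega
  have hn4 : 128 * D * (2 * k') ≤ n := by omega
  have hn5 : 192 * D * (8 * s) ≤ n := by omega
  have hn6 : 128 * D ≤ n := le_trans (Nat.le_mul_of_pos_right _ (by omega)) hn4
  have hn0 : 0 < n := by omega
  clear hn
  -- the parameters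
  obtain ⟨ℓ, hℓ⟩ : ∃ ℓ, ℓ = n / (128 * D * (2 * k')) := ⟨_, rfl⟩
  have hpos1 : 0 < 128 * D * (2 * k') := by positivity
  have hℓ1 : 1 ≤ ℓ := by
    rw [hℓ, Nat.le_div_iff_mul_le hpos1]
    omega
  have hℓ2 : 128 * D * (2 * k') * ℓ ≤ n := by
    rw [hℓ]
    exact Nat.mul_div_le _ _
  have hℓ3 : n < 128 * D * (2 * k') * (ℓ + 1) := by
    rw [hℓ]
    exact Nat.lt_mul_div_succ _ hpos1
  obtain ⟨r, hr⟩ : ∃ r, r = (k + 1) * n / ℓ + 1 := ⟨_, rfl⟩
  have hr1 : (k + 1) * n ≤ r * ℓ := by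
    have := Nat.lt_mul_div_succ ((k + 1) * n) (show 0 < ℓ by omega)
    rw [hr, mul_comm _ ℓ]
    exact this.le
  have hr2 : r * ℓ ≤ k' * n := by
    have h1 := Nat.div_mul_le_self ((k + 1) * n) ℓ
    have h2 : ℓ ≤ n := by
      rw [hℓ]
      exact Nat.div_le_self _ _
    have h3 : r * ℓ = (k + 1) * n / ℓ * ℓ + ℓ := by
      rw [hr]
      ring
    have h4 : k' * n = (k + 1) * n + n := by
      rw [hk']
      ring
    omega
  have hr3 : r ≤ R + 1 := by
    rw [hr, hR]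
    apply Nat.succ_le_succ
    have h0 : n ≤ 256 * D * (2 * k') * ℓ := by
      have e1 : 128 * D * (2 * k') * (ℓ + 1) = 128 * D * (2 * k') * ℓ + 128 * D * (2 * k') := by
        ring
      have e2 : 256 * D * (2 * k') * ℓ = 128 * D * (2 * k') * ℓ + 128 * D * (2 * k') * ℓ := by
        ring
      have e3 : 128 * D * (2 * k') * 1 ≤ 128 * D * (2 * k') * ℓ := Nat.mul_le_mul_left _ hℓ1
      omega
    have h1 : (k + 1) * n ≤ (k + 1) * (256 * D * (2 * k')) * ℓ := by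
      rw [mul_assoc]
      exact Nat.mul_le_mul_left _ h0
    exact (Nat.div_le_div_right h1).trans (by rw [Nat.mul_div_cancel _ (by omega)])
  obtain ⟨m, hm⟩ : ∃ m, m = n / (2 * D) := ⟨_, rfl⟩
  have hm1 : 2 * D * m ≤ n := by
    rw [hm]
    exact Nat.mul_div_le _ _
  have hm2 : n < 2 * D * (m + 1) := by
    rw [hm]
    exact Nat.lt_mul_div_succ _ (by omega)
  obtain ⟨ρ, hρ1, hρ2, hρ3⟩ := exists_rho hD1 hn1
  obtain ⟨N, hN⟩ : ∃ N, N = 2 ^ (ρ - 2) := ⟨_, rfl⟩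
  rw [← hN] at hρ2 hρ3
  have hN4 : 2 ^ ρ = 4 * N := by
    rw [hN, show (4 : ℕ) = 2 ^ 2 by norm_num, ← pow_add]
    congr 1
    omega
  have hN1 : 4 ≤ N := by
    rw [hN]
    calc 4 = 2 ^ 2 := by norm_num
      _ ≤ 2 ^ (ρ - 2) := Nat.pow_le_pow_right (by norm_num) (by omega)
  have hρn : 2 ^ ρ ≤ n := by
    rw [hN4]
    calc 4 * N ≤ ρ * N := Nat.mul_le_mul_right _ (by omega)
      _ = 1 * 1 * (ρ * N) := by ring
      _ ≤ 48 * D * (ρ * N) := Nat.mul_le_mul_right _ (Nat.mul_le_mul (by norm_num) hD1)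
      _ ≤ n := hρ2
  obtain ⟨Δ, hΔ⟩ : ∃ Δ, Δ = ρ * N / 8 := ⟨_, rfl⟩
  have hs1 : 8 * s ≤ ρ * N := by
    have h1 : 192 * D * (8 * s) < 192 * D * (ρ * N) := hn5.trans_lt hρ3
    exact (Nat.lt_of_mul_lt_mul_left h1).le
  have hΔ1 : 4 * (s + Δ) ≤ ρ * N := by omega
  have hΔ2 : ρ * N < 8 * (Δ + 1) := by omega
  obtain ⟨e, he⟩ : ∃ e, e = 16 * n / (2 ^ y * D) := ⟨_, rfl⟩
  have hyD : 0 < 2 ^ y * D := by positivity
  have he1 : 16 * n < 2 ^ y * D * (e + 1) := by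
    rw [he]
    exact Nat.lt_mul_div_succ _ hyD
  have he2 : 2 ^ y * D * e ≤ 16 * n := by
    rw [he]
    exact Nat.mul_div_le _ _
  -- the field
  have hρ0 : ρ ≠ 0 := by omega
  have hcF : Nat.card (GaloisField 2 ρ) = 2 ^ ρ := GaloisField.card 2 ρ hρ0
  have hfin : Finite (GaloisField 2 ρ) := by
    apply Nat.finite_of_card_ne_zero
    rw [hcF]
    positivity
  have : Fintype (GaloisField 2 ρ) := Fintype.ofFinite _
  have hF2 : Fintype.card (GaloisField 2 ρ) = 2 ^ ρ := by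
    rw [← Nat.card_eq_fintype_card]
    exact hcF
  have hF : Fintype.card (GaloisField 2 ρ) = 4 * N := hF2.trans hN4
  let e' : (Fin ρ → ZMod 2) ≃ₗ[ZMod 2] GaloisField 2 ρ :=
    (Module.finBasisOfFinrankEq (ZMod 2) (GaloisField 2 ρ)
      (GaloisField.finrank 2 hρ0)).equivFun.symm
  -- the matrix
  have hι : Fintype.card (Fin N × Fin 6 × Fin ρ) = N * (6 * ρ) := by
    rw [Fintype.card_prod, Fintype.card_prod, Fintype.card_fin, Fintype.card_fin, Fintype.card_fin]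
  obtain ⟨M, hM⟩ := hrnk n m s (Fin N × Fin 6 × Fin ρ) inferInstance (by
    rw [hι, hs]
    have h1 := rnk_num hn0 hn3 hm2 (K := ρ * N)
      (by rw [← mul_assoc] at hρ2 ⊢; exact hρ2) hD1
    have h2 : N * (6 * ρ) * (4 * D + 1) = 6 * (ρ * N) * (4 * D + 1) := by ring
    rw [h2]
    exact h1)
  rw [hι] at hM
  have hfib' : ∀ A : Finset (Fin n), m ≤ A.card →
      ∀ (I : Finset (Fin N)) (z : Fin N → (Fin 6 → GaloisField 2 ρ)),
      (univ.filter fun x : Inp n => (∀ i, i ∉ A → x i = false) ∧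
        ∀ j ∈ I, blk M e' x j = z j).card * Fintype.card (GaloisField 2 ρ) ^ (6 * I.card) ≤
          2 ^ (A.card + s) := fun A hA I z =>
    hfib n N ρ s (GaloisField 2 ρ) e' M A (hM A hA) I z
  refine ⟨fun x => decide (∃ j, qf (blk M e' x j) = 0), ?_, ?_⟩
  · have h1 := hnon n N ρ (GaloisField 2 ρ) e' M (by omega) hF2 hF
    obtain ⟨V, hV, start, next, acc, h2, h3⟩ := h1
    refine nonP_mono (ρ := ρ - 2) (B := 2 ^ (7 * ρ)) ?_ ?_
      ⟨V, hV, start, next, acc, h2, fun x => ?_⟩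
    · exact (Nat.sub_le _ _).trans (Nat.le_log_of_pow_le (by norm_num) hρn)
    · rw [mul_comm, pow_mul]
      exact Nat.pow_le_pow_left hρn 7
    · rw [decide_eq_true_iff]
      exact h3 x
  · intro W hW P v₀ out herr
    by_contra hcon
    push Not at hcon
    have hbd : ∀ y : Inp n, bd (padM hn0 P (k * n)) ℓ v₀ y r = P.run y 0 v₀ (k * n) := by
      intro y
      unfold bd
      obtain ⟨c, hc⟩ := Nat.exists_eq_add_of_le
        (show k * n ≤ r * ℓ by rw [Nat.succ_mul] at hr1; omega)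
      rw [hc]
      exact run_padM_late hn0 P (k * n) y v₀ c
    have hcore := core_few hsel hcor hzer (k := k') (y := y) (s := s) (Δ := Δ) (m := m) (e := e)
      (r := r) (ℓ := ℓ) (by omega) (padM hn0 P (k * n)) v₀ out (by
        rw [← hd, ← hD]
        have h1 : 2 * (64 * D * (2 * k' * ℓ + 1)) = 128 * D * (2 * k') * ℓ + 128 * D := by ring
        omega) hr2 (by rw [← hd, ← hD]; exact hm1) (by rw [← hd, ← hD]; exact he1) M e' hN1 hF
      hF2 hΔ1 (by
        rw [hF2]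
        exact Nat.pow_le_pow_right (by norm_num) (by omega)) (by
        have : 2 * 1 * m ≤ 2 * D * m := Nat.mul_le_mul_right _ (Nat.mul_le_mul_left _ hD1)
        omega) hfib'
      (fun x β i => cov_padM hn0 P (k * n) hℓ1 (by rw [← Nat.succ_mul]; exact hr1) β x i) (by
        rw [← hd, ← hLc]
        simp only [hbd]
        refine le_trans (Nat.mul_le_mul_right _ ?_) herr
        rw [hLc]
        calc 512 * (2 * (2 * k') * (2 * k') * (d + 1)) ≤ 512 * (3072 * (2 * k') ^ 5) :=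
              Nat.mul_le_mul_left _ hy2
          _ ≤ 2 ^ 21 * (2 * (k + 2)) ^ 5 := by
            rw [← mul_assoc]
            exact Nat.mul_le_mul_right _ (by norm_num))
    rw [← hd, ← hLc] at hcore
    have hb1 : 2 ^ (d + 15) = 2 ^ 15 * D := by
      rw [hD, pow_add, mul_comm]
    have hnum := num (b := d + 15) (e := e) (γ := 1 / (8192 * D * (R + 2))) hcore (by
      have := hcnt n e (d + 15)
      unfold Idx
      refine le_trans (le_of_eq ?_) this
      congr 2) hcon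
    exact final_num2 (A := ρ * N) hD1 hn0 hn2 hρ3 hΔ2 hr3 hb1 hy1 he2 hnum

end Pool.Agent.L0h32.LT2
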