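import Pool.Agent.L0h32.LT2.Comb

/-!
# The complement of the first function is hard for one-sided error
-/

set_option autoImplicit false

namespace Pool.Agent.L0h32.LT2

open Finset Polynomial Pool.Agent.L0h32.LT

theorem core' (hsel : S_SEL) (hrec : S_REC) {k E n ℓ r K m s D e : ℕ} (hk : 1 ≤ k)
    (hE : 1 ≤ E) (hD : D = gam (2 * k) E (2 * k)) (hn : 64 * D * (2 * k * ℓ + 1) ≤ n)
    (hrl : r * ℓ ≤ k * n) (hm : 2 * D * m ≤ n) (he : 16 * n < E * D * (e + 1))
    (M : Fin n → (Fin 6 × Fin K → ZMod 2))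
    (hrk : ∀ A : Finset (Fin n), m ≤ A.card →
      6 * K ≤ Module.finrank (ZMod 2) (Submodule.span (ZMod 2) (M '' A)) + s)
    (w : (ZMod 2)[X]) (S₀ : Finset (Inp n)) (hS₀ : S₀.Nonempty)
    {V : Type} [Finite V] (P : Mach n V) (v₀ : V)
    (hcov : ∀ x : Inp n, ∀ β : ℕ → V, ∀ i, (tt P ℓ β r x i).Nonempty)
    (hacc : ∀ x ∈ S₀, ∀ z, bd P ℓ v₀ z r = bd P ℓ v₀ x r → quad M z = w) :
    S₀.card * 2 ^ (3 * K) ≤ 8 * k * D * Nat.card V ^ (r + 1) * (Idx n e).card * 2 ^ (n + s) := by
  classical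
  obtain ⟨j, Q, Θ, F, h, β, S, hSW, hSne, hbd, hgood, hcard⟩ := exists_class hsel hk hE P v₀
    (by rw [← hD]; exact hn) (fun x i => hcov x _ i) hrl S₀ hS₀
  rw [← hD] at hgood hcard
  have hlb : ∀ x ∈ S, ∀ a : ℕ, Lb P ℓ β (fun s => (F s : ℕ)) (univ.filter fun i => (h i : ℕ) = 0)
      a x = univ.filter fun i => (h i : ℕ) = 0 ∧ ∀ s ∈ tt P ℓ β r x i, (F s : ℕ) = a := by
    intro x _ a
    unfold Lb
    rw [filter_filter]
  have hm' : ∀ c, n ≤ 2 * D * c → m ≤ c := by
    intro c hc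
    have hD0 : 0 < 2 * D := by
      have := gam_pos (show 1 ≤ 2 * k by omega) hE (2 * k)
      omega
    exact Nat.le_of_mul_le_mul_left (hm.trans hc) hD0
  have hmain := main_count hrec (m := m) (K := K) (s := s) (e := e) (j := j) P ℓ v₀ β
    (fun s => (F s : ℕ)) (univ.filter fun i => (h i : ℕ) = 0) M w hrk S hbd
    (fun x _ i => hcov x β i) (by
      intro x hx
      obtain ⟨-, -, h3⟩ := hgood x hx
      have h4 : Ex P ℓ β (fun s => (F s : ℕ)) (univ.filter fun i => (h i : ℕ) = 0) j x =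
          univ.filter fun i => (h i : ℕ) = 0 ∧ (tt P ℓ β r x i).card ≠ j ∧
            ∀ s ∈ tt P ℓ β r x i, (F s : ℕ) = 0 ∨ (F s : ℕ) = 1 := by
        unfold Ex
        rw [filter_filter]
      rw [h4]
      have h5 := h3.trans_lt he
      have h6 := Nat.lt_of_mul_lt_mul_left h5
      omega) (by
      intro x hx
      rw [hlb x hx 0]
      exact hm' _ (hgood x hx).1) (by
      intro x hx
      rw [hlb x hx 1]
      exact hm' _ (hgood x hx).2.1) (by
      intro z hz
      obtain ⟨x, hx⟩ := hSne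
      exact hacc x (hSW hx) z (by rw [hz, hbd x hx r le_rfl]))
  calc S₀.card * 2 ^ (3 * K) ≤ (4 * k * D * Nat.card V ^ (r + 1) * S.card) * 2 ^ (3 * K) :=
        Nat.mul_le_mul_right _ hcard
    _ = (4 * k * D * Nat.card V ^ (r + 1)) * (S.card * 2 ^ (3 * K)) := by ring
    _ ≤ (4 * k * D * Nat.card V ^ (r + 1)) * (2 * (Idx n e).card * 2 ^ (n + s)) :=
      Nat.mul_le_mul_left _ hmain
    _ = _ := by ring

theorem num' {L r v n K s b e I : ℕ} {γ : ℝ}
    (h1 : (2 : ℝ) ^ K ≤ L * v ^ (r + 1) * I * 2 ^ s * 2 ^ (γ * n))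
    (h2 : I * 2 ^ (b * n) ≤ 2 ^ (b * e) * (2 ^ b + 2) ^ n) (hv : (v : ℝ) ≤ 2 ^ (γ * n)) :
    (K : ℝ) ≤ L + s + (r + 2) * (γ * n) + b * e + 4 * n / 2 ^ b := by
  have e1 : (L : ℝ) ≤ 2 ^ (L : ℝ) := by
    rw [Real.rpow_natCast]
    exact_mod_cast Nat.lt_two_pow_self.le
  have e2 : (v : ℝ) ^ (r + 1) ≤ 2 ^ ((r + 1) * (γ * n)) := by
    calc (v : ℝ) ^ (r + 1) ≤ ((2 : ℝ) ^ (γ * n)) ^ (r + 1) := by gcongr
      _ = 2 ^ ((r + 1) * (γ * n)) := by
        rw [← Real.rpow_natCast, ← Real.rpow_mul (by norm_num)]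
        congr 1
        push_cast
        ring
  have e3 : (I : ℝ) ≤ 2 ^ ((b : ℝ) * e) * 2 ^ (4 * (n : ℝ) / 2 ^ b) := by
    have h3 : (I : ℝ) * 2 ^ (b * n) ≤ 2 ^ (b * e) * (2 ^ b + 2) ^ n := by exact_mod_cast h2
    have h4 : (2 : ℝ) ^ (b * n) = (2 ^ b) ^ n := by rw [pow_mul]
    have h5 : ((2 : ℝ) ^ b + 2) ^ n = (2 ^ b) ^ n * (1 + 2 / 2 ^ b) ^ n := by
      rw [← mul_pow]
      congr 1
      field_simp
    have h6 : (I : ℝ) ≤ 2 ^ (b * e) * (1 + 2 / 2 ^ b) ^ n := by
      rw [h4, h5] at h3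
      have h7 : (0 : ℝ) < (2 ^ b) ^ n := by positivity
      have h8 : (I : ℝ) * (2 ^ b) ^ n ≤ (2 ^ (b * e) * (1 + 2 / 2 ^ b) ^ n) * (2 ^ b) ^ n := by
        linarith
      exact le_of_mul_le_mul_right h8 h7
    refine h6.trans ?_
    have h7 : (2 : ℝ) ^ ((b : ℝ) * e) = 2 ^ (b * e) := by
      rw [← Real.rpow_natCast]
      push_cast
      rfl
    rw [h7]
    gcongr
    calc (1 + 2 / (2 : ℝ) ^ b) ^ n ≤ ((2 : ℝ) ^ (2 * (2 / (2 : ℝ) ^ b))) ^ n := by
          gcongr
          exact one_add_le_two_rpow (by positivity)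
      _ = 2 ^ (4 * (n : ℝ) / 2 ^ b) := by
        rw [← Real.rpow_natCast, ← Real.rpow_mul (by norm_num)]
        congr 1
        ring
  have h3 : (2 : ℝ) ^ (K : ℝ) ≤ 2 ^ ((L : ℝ) + s + (r + 2) * (γ * n) + b * e + 4 * n / 2 ^ b) := by
    rw [Real.rpow_natCast]
    refine h1.trans ?_
    calc (L : ℝ) * v ^ (r + 1) * I * 2 ^ s * 2 ^ (γ * n) ≤ 2 ^ (L : ℝ) * 2 ^ ((r + 1) * (γ * n)) *
          (2 ^ ((b : ℝ) * e) * 2 ^ (4 * (n : ℝ) / 2 ^ b)) * 2 ^ (s : ℝ) * 2 ^ (γ * n) := by
          rw [Real.rpow_natCast (2 : ℝ) s]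
          gcongr
      _ = _ := by
        rw [← Real.rpow_add (by norm_num), ← Real.rpow_add (by norm_num),
          ← Real.rpow_add (by norm_num), ← Real.rpow_add (by norm_num),
          ← Real.rpow_add (by norm_num)]
        congr 1
        ring
  exact (Real.rpow_le_rpow_left_iff (by norm_num)).1 h3

theorem final_num' {n D K r R b e E k' : ℕ} (hD1 : 1 ≤ D) (hn0 : 0 < n)
    (hn : 384 * D * (8 * k' * D + 4 * D + 1) ≤ n) (hK2 : n < 48 * D * (K + 1)) (hr3 : r ≤ R + 1)
    (hb1 : 2048 * D ≤ 2 ^ b) (hb2 : 6144 * b ≤ E) (he2 : E * D * e ≤ 16 * n)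
    (hcore : (K : ℝ) ≤ (8 * k' * D : ℕ) + (4 * D : ℕ) + (r + 2) * (1 / (384 * D * (R + 3)) * n) +
      b * e + 4 * n / 2 ^ b) : False := by
  have hDr : (0 : ℝ) < D := by exact_mod_cast hD1
  have hnr : (0 : ℝ) < n := by exact_mod_cast hn0
  have hu1 : (8 : ℝ) * k' * D + 4 * D + 1 ≤ n / (384 * D) := by
    rw [le_div_iff₀ (by positivity)]
    have : ((384 * D * (8 * k' * D + 4 * D + 1) : ℕ) : ℝ) ≤ n := by exact_mod_cast hn
    push_cast at this
    linarith
  have hu2 : 8 * ((n : ℝ) / (384 * D)) < K + 1 := by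
    have h1 : (n : ℝ) < 48 * D * (K + 1) := by exact_mod_cast hK2
    rw [← mul_div_assoc, div_lt_iff₀ (by positivity)]
    linarith
  have hu3 : ((r : ℝ) + 2) * (1 / (384 * D * (R + 3)) * n) ≤ n / (384 * D) := by
    have h1 : (r : ℝ) + 2 ≤ R + 3 := by
      have : ((r : ℕ) : ℝ) ≤ ((R + 1 : ℕ) : ℝ) := by exact_mod_cast hr3
      push_cast at this
      linarith
    calc ((r : ℝ) + 2) * (1 / (384 * D * (R + 3)) * n) ≤
        ((R : ℝ) + 3) * (1 / (384 * D * (R + 3)) * n) :=
          mul_le_mul_of_nonneg_right h1 (by positivity)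
      _ = n / (384 * D) := by
        field_simp
  have hu4 : (b : ℝ) * e ≤ n / (384 * D) := by
    have h1 : ((6144 * b * (D * e) : ℕ) : ℝ) ≤ ((16 * n : ℕ) : ℝ) := by
      have : 6144 * b * (D * e) ≤ 16 * n := by
        calc 6144 * b * (D * e) ≤ E * (D * e) := Nat.mul_le_mul_right _ hb2
          _ = E * D * e := by ring
          _ ≤ 16 * n := he2
      exact_mod_cast this
    push_cast at h1
    rw [le_div_iff₀ (by positivity)]
    linarith
  have hu5 : 4 * (n : ℝ) / 2 ^ b ≤ n / (384 * D) := by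
    have h1 : (2048 : ℝ) * D ≤ 2 ^ b := by exact_mod_cast hb1
    calc 4 * (n : ℝ) / 2 ^ b ≤ 4 * n / (2048 * D) := by
          apply div_le_div_of_nonneg_left (by positivity) (by positivity) h1
      _ ≤ n / (384 * D) := by
        rw [div_le_div_iff₀ (by positivity) (by positivity)]
        have : (0 : ℝ) < n * D := by positivity
        linarith
  push_cast at hcore
  have : (0 : ℝ) ≤ 8 * k' * D + 4 * D := by positivity
  linarith

open Classical in
/-- Every randomized program which works in time `T`, which never answers `false` if `f x` is true, and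
which answers `false` with probability at least `ε` if `f x` is false, has more than `L` nodes. -/
def HardC (n T : ℕ) (L ε : ℝ) (f : Inp n → Bool) : Prop :=
  ∀ (V Ω : Type) (_ : Finite V) (_ : Fintype Ω) (_ : Nonempty Ω) (start : Ω → V)
    (var : Ω → V → Fin n) (next : Ω → V → Bool → V) (out : Ω → V → Option Bool),
    (∀ x, f x = true → ∀ ω,
      out ω ((stp (var ω) (next ω) (out ω) x)^[T] (start ω)) ≠ some false) →
    (∀ x, f x = false → ε * Fintype.card Ω ≤ (univ.filter fun ω =>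
      out ω ((stp (var ω) (next ω) (out ω) x)^[T] (start ω)) = some false).card) →
        L < Nat.card V

/-- **Assembly.** -/
theorem asm' (hsel : S_SEL) (hrnk : S_RNK) (hrec : S_REC) (hone : S_ONE) (hpar : S_PAR)
    (hcnt : S_CNT) (k : ℕ) : ∃ γ : ℝ, 0 < γ ∧ ∃ n₀ : ℕ, ∀ n ≥ n₀,
      ∃ f : Inp n → Bool, OneP n (Nat.log 2 n) (n ^ 7) f ∧
        HardC n (k * n) (2 ^ (γ * n)) (2 ^ (-(γ * n))) f := by
  classical
  set k' := k + 2 with hk'
  obtain ⟨E, hE1, hE⟩ := hpar (2 * k') 73728 (by omega)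
  set D := gam (2 * k') E (2 * k') with hD
  have hD1 : 1 ≤ D := gam_pos (by omega) hE1 _
  set R := (k + 1) * (256 * D * (2 * k')) with hR
  refine ⟨1 / (384 * D * (R + 3)), by positivity, 384 * D * (8 * k' * D + 4 * D + 1), fun n hn => ?_⟩
  -- the parameters
  have hn1 : 384 * D ≤ n := le_trans (Nat.le_mul_of_pos_right _ (by omega)) hn
  have hn2 : 128 * D * (2 * k') ≤ n := by nlinarith
  have hn3 : 384 * D * (4 * D + 1) ≤ n := by nlinarith
  have hn0 : 0 < n := by omega
  set ℓ := n / (128 * D * (2 * k')) with hℓ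
  have hℓ1 : 1 ≤ ℓ := by
    rw [hℓ, Nat.le_div_iff_mul_le (by positivity)]
    omega
  have hℓ2 : 128 * D * (2 * k') * ℓ ≤ n := Nat.mul_div_le _ _
  have hℓ3 : n < 128 * D * (2 * k') * (ℓ + 1) := Nat.lt_mul_div_succ _ (by positivity)
  set r := (k + 1) * n / ℓ + 1 with hr
  have hr1 : (k + 1) * n ≤ r * ℓ := by
    have := Nat.lt_mul_div_succ ((k + 1) * n) (show 0 < ℓ by omega)
    rw [hr]
    nlinarith
  have hr2 : r * ℓ ≤ k' * n := by
    have h1 := Nat.div_mul_le_self ((k + 1) * n) ℓ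
    have h2 : ℓ ≤ n := Nat.div_le_self _ _
    rw [hr, hk']
    nlinarith
  have hr3 : r ≤ R + 1 := by
    rw [hr, hR]
    apply Nat.succ_le_succ
    have h1 : (k + 1) * n ≤ (k + 1) * (256 * D * (2 * k')) * ℓ := by
      rw [mul_assoc]
      apply Nat.mul_le_mul_left
      nlinarith
    exact (Nat.div_le_div_right h1).trans (by rw [Nat.mul_div_cancel _ (by omega)])
  set m := n / (2 * D) with hm
  have hm1 : 2 * D * m ≤ n := Nat.mul_div_le _ _
  have hm2 : n < 2 * D * (m + 1) := Nat.lt_mul_div_succ _ (by positivity)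
  set K := n / (48 * D) with hK
  have hK1 : 48 * D * K ≤ n := Nat.mul_div_le _ _
  have hK2 : n < 48 * D * (K + 1) := Nat.lt_mul_div_succ _ (by positivity)
  have hK3 : 1 ≤ K := by
    rw [hK, Nat.le_div_iff_mul_le (by positivity)]
    omega
  set s := 4 * D with hs
  set e := 16 * n / (E * D) with he
  have he1 : 16 * n < E * D * (e + 1) := Nat.lt_mul_div_succ _ (by positivity)
  have he2 : E * D * e ≤ 16 * n := Nat.mul_div_le _ _
  set b := Nat.log 2 D + 12 with hb
  have hb1 : 2048 * D ≤ 2 ^ b := by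
    have := Nat.lt_pow_succ_log_self (show 1 < 2 by norm_num) D
    rw [hb, pow_add]
    rw [pow_succ] at this
    omega
  have hb2 : 6144 * b ≤ E := by
    refine le_trans ?_ hE
    rw [hb]
    omega
  -- the matrix
  obtain ⟨M, hM⟩ := hrnk n m s (Fin 6 × Fin K) inferInstance (by
    rw [Fintype.card_prod, Fintype.card_fin, Fintype.card_fin, hs]
    exact rnk_num hn0 hn3 hm2 hK1 hD1)
  rw [Fintype.card_prod, Fintype.card_fin, Fintype.card_fin] at hM
  obtain ⟨w, hw⟩ := exists_popular M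
  refine ⟨fun x => decide (quad M x ≠ w), ?_, ?_⟩
  · -- the randomized program
    have hwx : ∃ x, quad M x = w := by
      by_contra hcon
      push Not at hcon
      have : (univ.filter fun x : Inp n => quad M x = w) = ∅ :=
        filter_eq_empty_iff.2 fun x _ => hcon x
      rw [this, card_empty, mul_zero] at hw
      have : 0 < 2 ^ n := by positivity
      omega
    obtain ⟨ρ, hρ, hρ1, hρK, hρn⟩ : ∃ ρ, ρ = Nat.log 2 n ∧ 1 ≤ ρ ∧ 4 * K ≤ 2 ^ ρ ∧ 2 ^ ρ ≤ n := by
      refine ⟨Nat.log 2 n, rfl, Nat.log_pos (by norm_num) (by omega), ?_,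
        Nat.pow_log_le_self 2 hn0.ne'⟩
      have h1 := Nat.lt_pow_succ_log_self (show 1 < 2 by norm_num) n
      rw [pow_succ] at h1
      have h4 : 48 * 1 * K ≤ 48 * D * K := Nat.mul_le_mul_right _ (Nat.mul_le_mul_left _ hD1)
      omega
    rw [← hρ]
    obtain ⟨V, hV, P, hcard, hP⟩ := hone n K ρ M w hρ1 hρK hwx
    have hfold : ∀ (ω : Fin ρ → Bool) (x : Inp n), ((List.finRange n).foldl (fun (v : (Fin ρ → Bool) × V) i =>
        (v.1, (P v.1).next i v.2 (x i))) (ω, (P ω).start)) =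
        (ω, (List.finRange n).foldl (fun v i => (P ω).next i v (x i)) (P ω).start) := by
      intro ω x
      generalize (P ω).start = v
      generalize List.finRange n = l
      induction l generalizing v with
      | nil => rfl
      | cons i l ih => exact ih _
    refine ⟨(Fin ρ → Bool) × V, inferInstance, fun ω => (ω, (P ω).start),
      fun i v b => (v.1, (P v.1).next i v.2 b), fun v => (P v.1).acc v.2, ?_, ?_⟩
    · rw [Nat.card_prod, Nat.card_eq_fintype_card, Fintype.card_fun, Fintype.card_bool,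
        Fintype.card_fin]
      calc 2 ^ ρ * Nat.card V ≤ 2 ^ ρ * 2 ^ (6 * ρ) := Nat.mul_le_mul_left _ hcard
        _ = (2 ^ ρ) ^ 7 := by ring
        _ ≤ n ^ 7 := Nat.pow_le_pow_left hρn 7
    · intro x
      simp only [hfold]
      constructor
      · intro hx
        have h1 := (hP x).1 (by simpa using hx)
        rw [Nat.card_eq_fintype_card, Fintype.card_subtype]
        have h2 : (univ.filter fun ω => (P ω).acc ((List.finRange n).foldl
          (fun v i => (P ω).next i v (x i)) (P ω).start)).card =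
            (univ.filter fun ω => (P ω).Accepts x).card := rfl
        have h3 : 2 ^ ρ ≤ 2 * (univ.filter fun ω => (P ω).acc ((List.finRange n).foldl
          (fun v i => (P ω).next i v (x i)) (P ω).start)).card := by
          rw [h2]
          exact h1
        exact h3
      · intro hx ω
        exact (hP x).2 (by simpa using hx) ω
  · intro V Ω hV hΩ hne start var next out htrue hfalse
    by_contra hcon
    push Not at hcon
    -- a good random string
    obtain ⟨W, hW⟩ : ∃ W, W = univ.filter fun x : Inp n => quad M x = w := ⟨_, rfl⟩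
    obtain ⟨ε, hε⟩ : ∃ ε : ℝ, ε = 2 ^ (-(1 / (384 * D * ((R : ℝ) + 3)) * n)) := ⟨_, rfl⟩
    have hε0 : 0 < ε := by
      rw [hε]
      positivity
    rw [← hε] at hfalse
    obtain ⟨ω, hω⟩ : ∃ ω : Ω, ε * W.card ≤ (W.filter fun x =>
        out ω ((stp (var ω) (next ω) (out ω) x)^[k * n] (start ω)) = some false).card := by
      by_contra hno
      push Not at hno
      have h1 : ∑ ω : Ω, ((W.filter fun x =>
          out ω ((stp (var ω) (next ω) (out ω) x)^[k * n] (start ω)) = some false).card : ℝ) <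
            ∑ _ω : Ω, ε * W.card := sum_lt_sum_of_nonempty univ_nonempty fun ω _ => hno ω
      have h2 : ∑ ω : Ω, ((W.filter fun x =>
          out ω ((stp (var ω) (next ω) (out ω) x)^[k * n] (start ω)) = some false).card : ℝ) =
            ∑ x ∈ W, ((univ.filter fun ω =>
          out ω ((stp (var ω) (next ω) (out ω) x)^[k * n] (start ω)) = some false).card : ℝ) := by
        simp only [card_filter]
        push_cast
        exact sum_comm
      have h3 : ∑ _x ∈ W, ε * Fintype.card Ω ≤ ∑ x ∈ W, ((univ.filter fun ω =>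
          out ω ((stp (var ω) (next ω) (out ω) x)^[k * n] (start ω)) = some false).card : ℝ) := by
        apply sum_le_sum
        intro x hx
        rw [hW] at hx
        exact hfalse x (decide_eq_false (by
          rw [not_not]
          exact (mem_filter.1 hx).2))
      rw [sum_const, nsmul_eq_mul] at h1 h3
      rw [card_univ] at h1
      rw [h2] at h1
      have h4 : (W.card : ℝ) * (ε * Fintype.card Ω) = (Fintype.card Ω : ℝ) * (ε * W.card) := by ring
      linarith
    obtain ⟨S₀, hS₀⟩ : ∃ S₀, S₀ = W.filter fun x =>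
        out ω ((stp (var ω) (next ω) (out ω) x)^[k * n] (start ω)) = some false := ⟨_, rfl⟩
    rw [← hS₀] at hω
    have hw' : (2 : ℝ) ^ n ≤ 2 ^ (2 * K) * W.card := by
      rw [hW]
      exact_mod_cast hw
    have hS₀c : ε * 2 ^ n ≤ 2 ^ (2 * K) * S₀.card := by
      calc ε * 2 ^ n ≤ ε * (2 ^ (2 * K) * W.card) := mul_le_mul_of_nonneg_left hw' hε0.le
        _ = 2 ^ (2 * K) * (ε * W.card) := by ring
        _ ≤ _ := mul_le_mul_of_nonneg_left hω (by positivity)
    have hS₀ne : S₀.Nonempty := by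
      rw [← card_pos]
      by_contra h0
      have h0' : S₀.card = 0 := by omega
      rw [h0', Nat.cast_zero, mul_zero] at hS₀c
      have : 0 < ε * 2 ^ n := by positivity
      linarith
    have hbd : ∀ y : Inp n, bd (pad hn0 (var ω) (next ω) (out ω) (k * n)) ℓ (start ω) y r =
        (stp (var ω) (next ω) (out ω) y)^[k * n] (start ω) := by
      intro y
      unfold bd
      obtain ⟨c, hc⟩ := Nat.exists_eq_add_of_le
        (show k * n ≤ r * ℓ by rw [Nat.succ_mul] at hr1; omega)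
      rw [hc]
      exact run_pad_late hn0 (var ω) (next ω) (out ω) (k * n) y (start ω) c
    have hcore := core' hsel hrec (k := k') (by omega) hE1 hD (by
      have h1 : 2 * (64 * D * (2 * k' * ℓ + 1)) = 128 * D * (2 * k') * ℓ + 128 * D := by ring
      omega) hr2 hm1 he1 M hM w S₀ hS₀ne
      (pad hn0 (var ω) (next ω) (out ω) (k * n)) (start ω) (by
      intro x β i
      exact cov_pad hn0 (var ω) (next ω) (out ω) (k * n) hℓ1
        (by rw [← Nat.succ_mul]; exact hr1) β x i) (by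
      intro x hx z hz
      rw [hS₀] at hx
      have hx2 := (mem_filter.1 hx).2
      rw [hbd, hbd] at hz
      rw [← hz] at hx2
      by_contra hne
      exact htrue z (decide_eq_true hne) ω hx2)
    have h1 : (2 : ℝ) ^ K ≤ ((8 * k' * D : ℕ) : ℝ) * (Nat.card V) ^ (r + 1) * (Idx n e).card *
        2 ^ s * 2 ^ (1 / (384 * D * ((R : ℝ) + 3)) * n) := by
      have h2 : (S₀.card : ℝ) * 2 ^ (3 * K) ≤ ((8 * k' * D : ℕ) : ℝ) * (Nat.card V) ^ (r + 1) *
          (Idx n e).card * 2 ^ (n + s) := by exact_mod_cast hcore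
      obtain ⟨B, hB⟩ : ∃ B : ℝ, B = ((8 * k' * D : ℕ) : ℝ) * (Nat.card V) ^ (r + 1) *
          (Idx n e).card := ⟨_, rfl⟩
      rw [← hB] at h2 ⊢
      have h3 : ε * 2 ^ n * 2 ^ K * 2 ^ (2 * K) ≤ B * 2 ^ s * 2 ^ n * 2 ^ (2 * K) := by
        calc ε * 2 ^ n * 2 ^ K * 2 ^ (2 * K) = (ε * 2 ^ n) * 2 ^ (3 * K) := by
              rw [show 3 * K = K + 2 * K by ring, pow_add]
              ring
          _ ≤ (2 ^ (2 * K) * S₀.card) * 2 ^ (3 * K) :=
            mul_le_mul_of_nonneg_right hS₀c (by positivity)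
          _ = 2 ^ (2 * K) * (S₀.card * 2 ^ (3 * K)) := by ring
          _ ≤ 2 ^ (2 * K) * (B * 2 ^ (n + s)) := mul_le_mul_of_nonneg_left h2 (by positivity)
          _ = _ := by
            rw [pow_add]
            ring
      have h4 : ε * 2 ^ K ≤ B * 2 ^ s := by
        have h5 : (0 : ℝ) < 2 ^ n * 2 ^ (2 * K) := by positivity
        have h6 : (ε * 2 ^ K) * (2 ^ n * 2 ^ (2 * K)) ≤ (B * 2 ^ s) * (2 ^ n * 2 ^ (2 * K)) := by
          linarith
        exact le_of_mul_le_mul_right h6 h5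
      have h5 : (2 : ℝ) ^ (1 / (384 * D * ((R : ℝ) + 3)) * n) * ε = 1 := by
        rw [hε, ← Real.rpow_add (by norm_num), add_neg_cancel, Real.rpow_zero]
      calc (2 : ℝ) ^ K = (2 : ℝ) ^ (1 / (384 * D * ((R : ℝ) + 3)) * n) * (ε * 2 ^ K) := by
            rw [← mul_assoc, h5, one_mul]
        _ ≤ (2 : ℝ) ^ (1 / (384 * D * ((R : ℝ) + 3)) * n) * (B * 2 ^ s) :=
          mul_le_mul_of_nonneg_left h4 (by positivity)
        _ = _ := by ring
    have hnum := num' (b := b) (e := e) h1 (by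
      have := hcnt n e b
      unfold Idx
      refine le_trans (le_of_eq ?_) this
      congr 2) hcon
    rw [hs] at hnum
    exact final_num' hD1 hn0 hn hK2 hr3 hb1 hb2 he2 hnum

end Pool.Agent.L0h32.LT2
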