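import Pool.Agent.L0h32.LT2.Co

/-!
# One sequence of functions for all lengths: one-sided error
-/

set_option autoImplicit false

namespace Pool.Agent.L0h32.LT2

open Finset Pool.Agent.L0h32.LT

open Classical in
/-- Every randomized program which never answers `false` if `f x` is true, and which answers `false`
within `T` steps with probability at least `ε` if `f x` is false, has more than `L` nodes. -/
def HardD (n T : ℕ) (L ε : ℝ) (f : Inp n → Bool) : Prop :=
  ∀ (V Ω : Type) (_ : Finite V) (_ : Fintype Ω) (_ : Nonempty Ω) (start : Ω → V)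
    (var : Ω → V → Fin n) (next : Ω → V → Bool → V) (out : Ω → V → Option Bool),
    (∀ x, f x = true → ∀ ω t,
      out ω ((stp (var ω) (next ω) (out ω) x)^[t] (start ω)) ≠ some false) →
    (∀ x, f x = false → ε * Fintype.card Ω ≤ (univ.filter fun ω =>
      out ω ((stp (var ω) (next ω) (out ω) x)^[T] (start ω)) = some false).card) →
        L < Nat.card V

theorem hardD_of_hardC {n T : ℕ} {L ε : ℝ} {f : Inp n → Bool} (h : HardC n T L ε f) :
    HardD n T L ε f := fun V Ω hV hΩ hne start var next out h1 h2 =>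
  h V Ω hV hΩ hne start var next out (fun x hx ω => h1 x hx ω T) h2

theorem hardD_mono {n T T' : ℕ} {L L' ε ε' : ℝ} {f : Inp n → Bool} (hT : T ≤ T') (hL : L' ≤ L)
    (hε : ε ≤ ε') (h : HardD n T' L ε f) : HardD n T L' ε' f := by
  classical
  intro V Ω hV hΩ hne start var next out h1 h2
  refine hL.trans_lt (h V Ω hV hΩ hne start var next out h1 fun x hx => ?_)
  have h3 : ε * Fintype.card Ω ≤ ε' * Fintype.card Ω :=
    mul_le_mul_of_nonneg_right hε (Nat.cast_nonneg _)
  refine h3.trans ((h2 x hx).trans ?_)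
  have h4 : (univ.filter fun ω =>
      out ω ((stp (var ω) (next ω) (out ω) x)^[T] (start ω)) = some false) ⊆
      univ.filter fun ω =>
      out ω ((stp (var ω) (next ω) (out ω) x)^[T'] (start ω)) = some false := fun ω hω =>
    mem_filter.2 ⟨mem_univ _, stp_late hT (mem_filter.1 hω).2⟩
  exact_mod_cast card_le_card h4

theorem sel_hardD {t n T : ℕ} {L ε : ℝ} (hn : 0 < n) (g : Fin t → Inp n → Bool) (k : Fin t)
    (hg : HardD n T L ε (g k)) : HardD (t + n) T L ε (sel g) := by
  classical
  intro V Ω hV hΩ hne start var next out htrue hfalse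
  have h2 : ∀ y, sel g (Fin.addCases (motive := fun _ => Bool) (fun i => decide (i = k)) y) =
      g k y := by
    intro y
    unfold sel
    simp only [Fin.addCases_left, Fin.addCases_right]
    cases hf : (List.finRange t).find? (fun i => decide (i = k)) with
    | none =>
      rw [List.find?_eq_none] at hf
      exact absurd (hf k (List.mem_finRange k)) (by simp)
    | some a =>
      have := List.find?_some hf
      have ha : a = k := by simpa using this
      rw [ha]
  have h3 : ∀ (y : Inp n) (ω : Ω),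
      stp (fun v => Fin.addCases (motive := fun _ => Fin n) (fun _ => ⟨0, hn⟩) (fun j => j)
          (var ω v))
        (fun v b => Fin.addCases (motive := fun _ => V) (fun i => next ω v (decide (i = k)))
          (fun _ => next ω v b) (var ω v)) (out ω) y =
      stp (var ω) (next ω) (out ω)
        (Fin.addCases (motive := fun _ => Bool) (fun i => decide (i = k)) y) := by
    intro y ω
    funext v
    unfold stp
    by_cases hv : (out ω v).isSome = true
    · rw [if_pos hv, if_pos hv]
    · rw [if_neg hv, if_neg hv]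
      generalize hw : var ω v = w
      induction w using Fin.addCases with
      | left i => simp only [hw, Fin.addCases_left]
      | right i => simp only [hw, Fin.addCases_right]
  refine hg V Ω hV hΩ hne start
    (fun ω v => Fin.addCases (motive := fun _ => Fin n) (fun _ => ⟨0, hn⟩) (fun j => j) (var ω v))
    (fun ω v b => Fin.addCases (motive := fun _ => V) (fun i => next ω v (decide (i = k)))
      (fun _ => next ω v b) (var ω v)) out (fun y hy ω τ => ?_) fun y hy => ?_
  · have h4 := htrue (Fin.addCases (motive := fun _ => Bool) (fun i => decide (i = k)) y)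
      (by rw [h2]; exact hy) ω τ
    rw [← h3 y ω] at h4
    exact h4
  · refine (hfalse (Fin.addCases (motive := fun _ => Bool) (fun i => decide (i = k)) y)
      (by rw [h2]; exact hy)).trans ?_
    have h5 : (univ.filter fun ω => out ω ((stp (var ω) (next ω) (out ω)
        (Fin.addCases (motive := fun _ => Bool) (fun i => decide (i = k)) y))^[T] (start ω)) =
          some false) ⊆ univ.filter fun ω => out ω ((stp (fun v => Fin.addCases
            (motive := fun _ => Fin n) (fun _ => ⟨0, hn⟩) (fun j => j) (var ω v))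
        (fun v b => Fin.addCases (motive := fun _ => V) (fun i => next ω v (decide (i = k)))
          (fun _ => next ω v b) (var ω v)) (out ω) y)^[T] (start ω)) = some false := by
      intro ω hω
      refine mem_filter.2 ⟨mem_univ _, ?_⟩
      rw [h3 y ω]
      exact (mem_filter.1 hω).2
    exact_mod_cast card_le_card h5

/-- **One sequence of functions for all lengths.** -/
theorem all_lengths' (hsel : S_SEL) (hrnk : S_RNK) (hrec : S_REC) (hone : S_ONE) (hpar : S_PAR)
    (hcnt : S_CNT) : ∃ f : (n : ℕ) → Inp n → Bool,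
      (∀ n, 1 ≤ n → ∃ ρ, 2 ^ ρ ≤ n ∧ OneP n ρ (n ^ 8) (f n)) ∧
      ∀ k : ℕ, ∃ γ : ℝ, 0 < γ ∧ ∃ n₀ : ℕ, ∀ n ≥ n₀,
        HardD n (k * n) (2 ^ (γ * n)) (2 ^ (-(γ * n))) (f n) := by
  classical
  choose γ hγ n₀ hn₀ using asm' hsel hrnk hrec hone hpar hcnt
  have key : ∀ N : ℕ, ∃ f : Inp N → Bool,
      (1 ≤ N → ∃ ρ, 2 ^ ρ ≤ N ∧ OneP N ρ (N ^ 8) f) ∧
      ∀ k, k < N / 2 → n₀ k ≤ N - N / 2 →
        HardD N (k * (N - N / 2)) (2 ^ (γ k * (N - N / 2 : ℕ)))
          (2 ^ (-(γ k * (N - N / 2 : ℕ)))) f := by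
    intro N
    obtain ⟨t, n, ht, hn, rfl⟩ : ∃ t n, t = N / 2 ∧ n = N - N / 2 ∧ N = t + n :=
      ⟨_, _, rfl, rfl, by omega⟩
    rw [← ht]
    have e : t + n - t = n := by omega
    rw [e]
    rcases Nat.eq_zero_or_pos n with h0 | h0
    · refine ⟨fun _ => false, fun h => ?_, fun k hk => ?_⟩
      · omega
      · omega
    have hg : ∀ k : Fin t, ∃ g : Inp n → Bool, OneP n (Nat.log 2 n) (n ^ 7) g ∧
        (n₀ k ≤ n → HardC n (k * n) (2 ^ (γ k * n)) (2 ^ (-(γ k * n))) g) := by
      intro k
      by_cases h : n₀ k ≤ n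
      · obtain ⟨g, h1, h2⟩ := hn₀ k n h
        exact ⟨g, h1, fun _ => h2⟩
      · exact ⟨fun _ => false, oneP_false _ _ _ (Nat.one_le_pow _ _ h0), fun h' => absurd h' h⟩
    choose g hg1 hg2 using hg
    refine ⟨sel g, fun _ => ⟨Nat.log 2 n, ?_, ?_⟩, fun k hk hk' => ?_⟩
    · exact (Nat.pow_log_le_self 2 h0.ne').trans (by omega)
    · obtain ⟨V, hV, start, next, acc, h1, h2⟩ := sel_oneP g hg1
      refine ⟨V, hV, start, next, acc, h1.trans ?_, h2⟩
      have h3 : 2 ^ Nat.log 2 n ≤ n ^ 7 :=
        (Nat.pow_log_le_self 2 h0.ne').trans (Nat.le_self_pow (by norm_num) n)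
      calc 2 ^ Nat.log 2 n + t * n ^ 7 ≤ n ^ 7 + t * n ^ 7 := Nat.add_le_add_right h3 _
        _ = (t + 1) * n ^ 7 := by ring
        _ ≤ (t + n) * (t + n) ^ 7 :=
          Nat.mul_le_mul (by omega) (Nat.pow_le_pow_left (by omega) 7)
        _ = (t + n) ^ 8 := by ring
    · exact sel_hardD h0 g ⟨k, hk⟩ (hardD_of_hardC (hg2 ⟨k, hk⟩ hk'))
  choose f hf1 hf2 using key
  refine ⟨f, hf1, fun k => ⟨γ (2 * k) / 2, half_pos (hγ _), 2 * n₀ (2 * k) + 4 * k + 2, ?_⟩⟩
  intro N hN
  have h1 : (N : ℝ) ≤ 2 * ((N - N / 2 : ℕ) : ℝ) := by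
    have : N ≤ 2 * (N - N / 2) := by omega
    exact_mod_cast this
  have h2 := hγ (2 * k)
  have h3 : γ (2 * k) / 2 * (N : ℝ) ≤ γ (2 * k) * ((N - N / 2 : ℕ) : ℝ) := by
    calc γ (2 * k) / 2 * (N : ℝ) ≤ γ (2 * k) / 2 * (2 * ((N - N / 2 : ℕ) : ℝ)) :=
          mul_le_mul_of_nonneg_left h1 (by positivity)
      _ = _ := by ring
  refine hardD_mono ?_ ?_ ?_ (hf2 N (2 * k) (by omega) (by omega))
  · have : N ≤ 2 * (N - N / 2) := by omega
    calc k * N ≤ k * (2 * (N - N / 2)) := Nat.mul_le_mul_left _ this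
      _ = 2 * k * (N - N / 2) := by ring
  · exact Real.rpow_le_rpow_of_exponent_le (by norm_num) h3
  · exact Real.rpow_le_rpow_of_exponent_le (by norm_num) (neg_le_neg h3)

end Pool.Agent.L0h32.LT2
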