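import Pool.Agent.L0h32.LT2.Asm
import Pool.Agent.L0h32.LT.Comb

/-!
# One sequence of functions for all lengths
-/

set_option autoImplicit false

namespace Pool.Agent.L0h32.LT2

open Finset Pool.Agent.L0h32.LT

theorem stp_late {n : ℕ} {V : Type} {var : V → Fin n} {next : V → Bool → V}
    {out : V → Option Bool} {x : Inp n} {v : V} {T T' : ℕ} {a : Bool} (hT : T ≤ T')
    (h : out ((stp var next out x)^[T] v) = some a) : out ((stp var next out x)^[T'] v) = some a := by
  obtain ⟨c, rfl⟩ := Nat.exists_eq_add_of_le hT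
  induction c with
  | zero => exact h
  | succ c ih =>
    have h1 := ih (by omega)
    rw [← Nat.add_assoc, Function.iterate_succ_apply']
    have h2 : stp var next out x ((stp var next out x)^[T + c] v) =
        (stp var next out x)^[T + c] v := by
      show (if (out ((stp var next out x)^[T + c] v)).isSome then _ else _) = _
      rw [if_pos (by rw [h1]; rfl)]
    rw [h2]
    exact h1

theorem hardR_mono {n T T' : ℕ} {L L' : ℝ} {f : Inp n → Bool} (hT : T ≤ T') (hL : L' ≤ L)
    (h : HardR n T' L f) : HardR n T L' f := by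
  classical
  intro V Ω hV hΩ hne start var next out hcorr
  refine hL.trans_lt (h V Ω hV hΩ hne start var next out fun x => ?_)
  refine (hcorr x).trans (Nat.mul_le_mul_left 3 (card_le_card ?_))
  intro ω hω
  exact mem_filter.2 ⟨mem_univ _, stp_late hT (mem_filter.1 hω).2⟩

theorem sel_nonP {t n ρ B : ℕ} (g : Fin t → Inp n → Bool) (hg : ∀ k, NonP n ρ B (g k)) :
    NonP (t + n) ρ (2 ^ ρ + t * B) (sel g) := by
  choose V hV start next acc hcard hdec using hg
  let W := (Fin ρ → Bool) ⊕ (Σ k : Fin t, V k)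
  let A : Fin t → W → Bool → W := fun i w b => match w with
    | Sum.inl ω => if b then Sum.inr ⟨i, start i ω⟩ else Sum.inl ω
    | Sum.inr v => Sum.inr v
  let C : Fin n → W → Bool → W := fun i w b => match w with
    | Sum.inl ω => Sum.inl ω
    | Sum.inr v => Sum.inr ⟨v.1, next v.1 i v.2 b⟩
  let nx : Fin (t + n) → W → Bool → W := Fin.addCases A C
  let ac : W → Prop := fun w => match w with
    | Sum.inl _ => False
    | Sum.inr v => acc v.1 v.2
  have hA0 : ∀ (x : Inp (t + n)) (l : List (Fin t)) (v : Σ k : Fin t, V k),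
      l.foldl (fun w i => A i w (x (Fin.castAdd n i))) (Sum.inr v) = Sum.inr v := by
    intro x l v
    induction l with
    | nil => rfl
    | cons i l ih => exact ih
  have hA : ∀ (x : Inp (t + n)) (l : List (Fin t)) (ω : Fin ρ → Bool),
      l.foldl (fun w i => A i w (x (Fin.castAdd n i))) (Sum.inl ω) =
        match l.find? (fun i => x (Fin.castAdd n i)) with
        | none => Sum.inl ω
        | some k => Sum.inr ⟨k, start k ω⟩ := by
    intro x l ω
    induction l with
    | nil => rfl
    | cons i l ih =>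
      rw [List.foldl_cons, List.find?_cons]
      cases hx : x (Fin.castAdd n i) with
      | false =>
        exact ih
      | true =>
        have h1 : A i (Sum.inl ω) true = Sum.inr ⟨i, start i ω⟩ := rfl
        rw [h1]
        exact hA0 x l _
  have hC0 : ∀ (x : Inp (t + n)) (l : List (Fin n)) (ω : Fin ρ → Bool),
      l.foldl (fun w i => C i w (x (Fin.natAdd t i))) (Sum.inl ω) = Sum.inl ω := by
    intro x l ω
    induction l with
    | nil => rfl
    | cons i l ih => exact ih
  have hC : ∀ (x : Inp (t + n)) (l : List (Fin n)) (k : Fin t) (v : V k),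
      l.foldl (fun w i => C i w (x (Fin.natAdd t i))) (Sum.inr ⟨k, v⟩) =
        Sum.inr ⟨k, l.foldl (fun v i => next k i v (x (Fin.natAdd t i))) v⟩ := by
    intro x l k v
    induction l generalizing v with
    | nil => rfl
    | cons i l ih => exact ih _
  have hrun : ∀ (x : Inp (t + n)) (ω : Fin ρ → Bool),
      (List.finRange (t + n)).foldl (fun w i => nx i w (x i)) (Sum.inl ω) =
        (match (List.finRange t).find? (fun i => x (Fin.castAdd n i)) with
        | none => Sum.inl ω
        | some k => Sum.inr ⟨k, (List.finRange n).foldl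
          (fun v i => next k i v (x (Fin.natAdd t i))) (start k ω)⟩ : W) := by
    intro x ω
    rw [finRange_add, List.foldl_append, List.foldl_map, List.foldl_map]
    have h1 : ∀ w, (List.finRange t).foldl (fun w i => nx (Fin.castAdd n i) w
        (x (Fin.castAdd n i))) w = (List.finRange t).foldl (fun w i => A i w
          (x (Fin.castAdd n i))) w := by
      intro w
      congr 1
      funext w i
      show (Fin.addCases A C (Fin.castAdd n i) : W → Bool → W) w _ = _
      rw [Fin.addCases_left]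
    have h2 : ∀ w, (List.finRange n).foldl (fun w i => nx (Fin.natAdd t i) w
        (x (Fin.natAdd t i))) w = (List.finRange n).foldl (fun w i => C i w
          (x (Fin.natAdd t i))) w := by
      intro w
      congr 1
      funext w i
      show (Fin.addCases A C (Fin.natAdd t i) : W → Bool → W) w _ = _
      rw [Fin.addCases_right]
    rw [h1, h2, hA]
    cases (List.finRange t).find? (fun i => x (Fin.castAdd n i)) with
    | none => exact hC0 x _ ω
    | some k => exact hC x _ k _
  refine ⟨W, inferInstance, Sum.inl, nx, ac, ?_, ?_⟩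
  · have h1 : Nat.card W = 2 ^ ρ + ∑ k : Fin t, Nat.card (V k) := by
      rw [Nat.card_sum, Nat.card_sigma, Nat.card_eq_fintype_card, Fintype.card_fun,
        Fintype.card_bool, Fintype.card_fin]
    rw [h1]
    apply Nat.add_le_add_left
    refine (sum_le_card_nsmul _ _ B fun k _ => hcard k).trans ?_
    rw [card_univ, Fintype.card_fin, smul_eq_mul]
  · intro x
    simp only [hrun]
    unfold sel
    cases (List.finRange t).find? (fun i => x (Fin.castAdd n i)) with
    | none =>
      refine ⟨fun h => by simp at h, ?_⟩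
      rintro ⟨ω, h⟩
      exact h.elim
    | some k => exact hdec k fun i => x (Fin.natAdd t i)

theorem sel_hardR {t n T : ℕ} {L : ℝ} (hn : 0 < n) (g : Fin t → Inp n → Bool) (k : Fin t)
    (hg : HardR n T L (g k)) : HardR (t + n) T L (sel g) := by
  classical
  intro V Ω hV hΩ hne start var next out hcorr
  refine hg V Ω hV hΩ hne start
    (fun ω v => Fin.addCases (motive := fun _ => Fin n) (fun _ => ⟨0, hn⟩) (fun j => j) (var ω v))
    (fun ω v b => Fin.addCases (motive := fun _ => V) (fun i => next ω v (decide (i = k)))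
      (fun _ => next ω v b) (var ω v)) out fun y => ?_
  have h1 := hcorr (Fin.addCases (motive := fun _ => Bool) (fun i => decide (i = k)) y)
  have h2 : sel g (Fin.addCases (motive := fun _ => Bool) (fun i => decide (i = k)) y) =
      g k y := by
    unfold sel
    simp only [Fin.addCases_left, Fin.addCases_right]
    cases hf : (List.finRange t).find? (fun i => decide (i = k)) with
    | none =>
      rw [List.find?_eq_none] at hf
      exact absurd (hf k (List.mem_finRange k)) (by simp)
    | some a =>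
      have := List.find?_some hf
      have ha : a = k := by simpa using this
      rw [ha]
  rw [h2] at h1
  refine h1.trans (Nat.mul_le_mul_left 3 (card_le_card ?_))
  intro ω hω
  refine mem_filter.2 ⟨mem_univ _, ?_⟩
  have h3 := (mem_filter.1 hω).2
  rw [← h3]
  congr 1
  congr 1
  funext v
  unfold stp
  by_cases hv : (out ω v).isSome = true
  · rw [if_pos hv, if_pos hv]
  · rw [if_neg hv, if_neg hv]
    generalize hw : var ω v = w
    induction w using Fin.addCases with
    | left i => simp only [hw, Fin.addCases_left]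
    | right i => simp only [hw, Fin.addCases_right]

theorem nonP_false (n ρ B : ℕ) (hB : 1 ≤ B) : NonP n ρ B (fun _ => false) := by
  refine ⟨Unit, inferInstance, fun _ => (), fun _ _ _ => (), fun _ => False, ?_, ?_⟩
  · simpa using hB
  · intro x
    simp

/-- **One sequence of functions for all lengths.** -/
theorem all_lengths2 (hsel : S_SEL2) (hcor : S_COR) (hzer : S_ZER) (hfib : S_FIB) (hnon : S_NON)
    (hpar : S_PAR2) (hrnk : S_RNK) (hcnt : S_CNT) (hamp : S_AMP) :
    ∃ f : (n : ℕ) → Inp n → Bool,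
      (∀ n, 1 ≤ n → ∃ ρ, 2 ^ ρ ≤ n ∧ NonP n ρ (n ^ 8) (f n)) ∧
      ∀ k : ℕ, ∃ γ : ℝ, 0 < γ ∧ ∃ n₀ : ℕ, ∀ n ≥ n₀, HardR n (k * n) (2 ^ (γ * n)) (f n) := by
  classical
  choose γ hγ n₀ hn₀ using asm2 hsel hcor hzer hfib hnon hpar hrnk hcnt
  have key : ∀ N : ℕ, ∃ f : Inp N → Bool,
      (1 ≤ N → ∃ ρ, 2 ^ ρ ≤ N ∧ NonP N ρ (N ^ 8) f) ∧
      ∀ k r, 1 ≤ k → k * r < N / 2 → n₀ (k * r) ≤ N - N / 2 →
        ((2 ^ 21 * (2 * (k * r + 2)) ^ 5 : ℕ) : ℝ) * (19 / 20) ^ r ≤ 1 →
        ∀ γ' : ℝ, γ' * r ≤ γ (k * r) →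
        HardR N (k * (N - N / 2)) (2 ^ (γ' * (N - N / 2 : ℕ))) f := by
    intro N
    obtain ⟨t, n, ht, hn, rfl⟩ : ∃ t n, t = N / 2 ∧ n = N - N / 2 ∧ N = t + n :=
      ⟨_, _, rfl, rfl, by omega⟩
    rw [← ht]
    have e : t + n - t = n := by omega
    rw [e]
    rcases Nat.eq_zero_or_pos n with h0 | h0
    · refine ⟨fun _ => false, fun h => ?_, fun k r _ hk => ?_⟩
      · omega
      · omega
    have hg : ∀ k : Fin t, ∃ g : Inp n → Bool, NonP n (Nat.log 2 n) (n ^ 7) g ∧
        (n₀ k ≤ n → HardM n (k * n) (2 ^ 21 * (2 * (k + 2)) ^ 5) (2 ^ (γ k * n)) g) := by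
      intro k
      by_cases h : n₀ k ≤ n
      · obtain ⟨g, h1, h2⟩ := hn₀ k n h
        exact ⟨g, h1, fun _ => h2⟩
      · exact ⟨fun _ => false, nonP_false _ _ _ (Nat.one_le_pow _ _ h0), fun h' => absurd h' h⟩
    choose g hg1 hg2 using hg
    refine ⟨sel g, fun _ => ⟨Nat.log 2 n, ?_, ?_⟩, fun k r hk1 hk hk' hrep γ' hγ' => ?_⟩
    · exact (Nat.pow_log_le_self 2 h0.ne').trans (by omega)
    · obtain ⟨V, hV, start, next, acc, h1, h2⟩ := sel_nonP g hg1
      refine ⟨V, hV, start, next, acc, h1.trans ?_, h2⟩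
      have h3 : 2 ^ Nat.log 2 n ≤ n ^ 7 :=
        (Nat.pow_log_le_self 2 h0.ne').trans (Nat.le_self_pow (by norm_num) n)
      calc 2 ^ Nat.log 2 n + t * n ^ 7 ≤ n ^ 7 + t * n ^ 7 := Nat.add_le_add_right h3 _
        _ = (t + 1) * n ^ 7 := by ring
        _ ≤ (t + n) * (t + n) ^ 7 :=
          Nat.mul_le_mul (by omega) (Nat.pow_le_pow_left (by omega) 7)
        _ = (t + n) ^ 8 := by ring
    · refine sel_hardR h0 g ⟨k * r, hk⟩ ?_
      have h1 := hg2 ⟨k * r, hk⟩ hk'
      dsimp only at h1
      have h2 : k * r * n = r * (k * n) := by ring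
      rw [h2] at h1
      refine hardR_of_hardM hamp h0 (Nat.mul_pos hk1 h0) (L := 2 ^ (γ (k * r) * n)) ?_ hrep h1
      rw [← Real.rpow_natCast, ← Real.rpow_mul (by norm_num)]
      apply Real.rpow_le_rpow_of_exponent_le (by norm_num)
      have hn0 : (0 : ℝ) ≤ n := Nat.cast_nonneg _
      calc γ' * n * r = (γ' * r) * n := by ring
        _ ≤ γ (k * r) * n := mul_le_mul_of_nonneg_right hγ' hn0
  choose f hf1 hf2 using key
  refine ⟨f, hf1, fun k => ?_⟩
  obtain ⟨r, hr1, hr⟩ := exists_rep (2 * k + 1)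
  have hrr : (0 : ℝ) < r := by exact_mod_cast hr1
  have hγ0 := hγ ((2 * k + 1) * r)
  refine ⟨γ ((2 * k + 1) * r) / (2 * r), by positivity,
    2 * n₀ ((2 * k + 1) * r) + 4 * ((2 * k + 1) * r) + 2, ?_⟩
  intro N hN
  obtain ⟨K, hK⟩ : ∃ K, K = (2 * k + 1) * r := ⟨_, rfl⟩
  rw [← hK] at hN hγ0 ⊢
  refine hardR_mono ?_ ?_ (hf2 N (2 * k + 1) r (by omega) (by rw [← hK]; omega)
    (by rw [← hK]; omega) (by rw [mul_comm (2 * k + 1) r]; exact hr) (γ K / r) (by
      rw [← hK, div_mul_cancel₀ _ hrr.ne']))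
  · have : N ≤ 2 * (N - N / 2) := by omega
    calc k * N ≤ k * (2 * (N - N / 2)) := Nat.mul_le_mul_left _ this
      _ = 2 * k * (N - N / 2) := by ring
      _ ≤ (2 * k + 1) * (N - N / 2) := Nat.mul_le_mul_right _ (by omega)
  · apply Real.rpow_le_rpow_of_exponent_le (by norm_num)
    have h1 : (N : ℝ) ≤ 2 * ((N - N / 2 : ℕ) : ℝ) := by
      have : N ≤ 2 * (N - N / 2) := by omega
      exact_mod_cast this
    calc γ K / (2 * r) * N ≤ γ K / (2 * r) * (2 * ((N - N / 2 : ℕ) : ℝ)) :=
          mul_le_mul_of_nonneg_left h1 (by positivity)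
      _ = γ K / r * ((N - N / 2 : ℕ) : ℝ) := by
        field_simp

end Pool.Agent.L0h32.LT2
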