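import Pool.Agent.L0h32.LT2.Mix2
import Pool.Agent.L0h32.LT.Num

/-!
# The core: machines with errors
-/

set_option autoImplicit false

namespace Pool.Agent.L0h32.LT2

open Finset Pool.Agent.L0h32.LT

variable {n N ρ : ℕ} {W F' : Type} [Field F'] [Fintype F']

open Classical in
/-- The rejected inputs are corrupted. -/
theorem core_count (hsel : S_SEL2) (hcor : S_COR) [CharP F' 2] {k y s Δ m e r ℓ : ℕ} (hk : 1 ≤ k)
    (P : Mach n W) [Finite W] (v₀ : W) (out : W → Bool)
    (hn : 64 * 2 ^ dex (2 * k) y * (2 * k * ℓ + 1) ≤ n) (hrl : r * ℓ ≤ k * n)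
    (hm : 2 * 2 ^ dex (2 * k) y * m ≤ n) (he : 16 * n < 2 ^ y * 2 ^ dex (2 * k) y * (e + 1))
    (M : Fin n → (Fin N × Fin 6 × Fin ρ → ZMod 2)) (e' : (Fin ρ → ZMod 2) → F')
    (hN : 4 ≤ N) (hF : Fintype.card F' = 4 * N) (hF2 : Fintype.card F' = 2 ^ ρ)
    (hΔ : 4 * (s + Δ) ≤ ρ * N)
    (hfib : ∀ A : Finset (Fin n), m ≤ A.card → ∀ (I : Finset (Fin N)) (z : Fin N → (Fin 6 → F')),
      (univ.filter fun x : Inp n => (∀ i, i ∉ A → x i = false) ∧
        ∀ j ∈ I, blk M e' x j = z j).card * Fintype.card F' ^ (6 * I.card) ≤ 2 ^ (A.card + s))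
    (hcov : ∀ (x : Inp n) (β : ℕ → W) (i : Fin n), (tt P ℓ β r x i).Nonempty) :
    2 ^ Δ * (univ.filter fun x : Inp n => out (bd P ℓ v₀ x r) = false).card ≤
      2 * (2 * (2 * k) * (2 * k) * (dex (2 * k) y + 1)) *
        (2 ^ Δ * (32 * (univ.filter fun x : Inp n => out (bd P ℓ v₀ x r) = false ∧
          ∃ j, qf (blk M e' x j) = 0).card) +
          Nat.card W ^ (r + 1) * (2 * ((Idx n e).card * 2 ^ n))) := by
  have : Fintype W := Fintype.ofFinite W
  set D := 2 ^ dex (2 * k) y with hD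
  have hD0 : 0 < D := by positivity
  set S := univ.filter fun x : Inp n => out (bd P ℓ v₀ x r) = false with hS
  rcases S.eq_empty_or_nonempty with h0 | h0
  · rw [h0, card_empty, mul_zero]
    exact Nat.zero_le _
  -- the parameters of an input
  have h1 : ∀ x : Inp n, ∃ p : ℕ × ℕ × ℕ,
      p ∈ Icc 1 (2 * (2 * k)) ×ˢ (Icc 1 (2 * k) ×ˢ range (dex (2 * k) y + 1)) ∧
      (2 ^ (lam (2 * k) y * p.1)) ^ r * (2 ^ p.2.2) ^ n ≤
          2 * (univ.filter fun Fh : (Fin r → Fin (2 ^ (lam (2 * k) y * p.1))) ×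
            (Fin n → Fin (2 ^ p.2.2)) =>
              Good D (2 ^ y) p.2.1 (tt P ℓ (bd P ℓ v₀ x) r x) Fh.1 Fh.2).card := by
    intro x
    have hsum : ∑ i, (tt P ℓ (bd P ℓ v₀ x) r x i).card =
        ∑ s : Fin r, (seg P ℓ (bd P ℓ v₀ x) x s).card := by
      unfold tt
      simp only [card_filter]
      rw [sum_comm]
      apply sum_congr rfl
      intro s _
      rw [← card_filter, filter_mem_eq_inter, univ_inter]
    obtain ⟨u, j, θ, h2, h3, h4, h5, h6, h7⟩ := hsel k y n r ℓ hk hn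
      (tt P ℓ (bd P ℓ v₀ x) r x) (hcov x _) (by
        rw [hsum]
        refine (sum_le_card_nsmul _ _ ℓ fun s _ => card_rd_le _ _ _ _ _).trans ?_
        rw [card_univ, Fintype.card_fin, smul_eq_mul]
        exact hrl) (by
        intro s
        have : (univ.filter fun i => s ∈ tt P ℓ (bd P ℓ v₀ x) r x i) =
            seg P ℓ (bd P ℓ v₀ x) x s := by
          ext i
          simp [tt]
        rw [this]
        exact card_rd_le _ _ _ _ _)
    exact ⟨(u, j, θ), mem_product.2 ⟨mem_Icc.2 ⟨h2, h3⟩, mem_product.2 ⟨mem_Icc.2 ⟨h4, h5⟩,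
      mem_range.2 (Nat.lt_succ_of_le h6)⟩⟩, h7⟩
  choose p hp hp' using h1
  obtain ⟨⟨u, j, θ⟩, hy, hc1⟩ := pigeon S p _ (fun x _ => hp x) h0
  set S₁ := S.filter fun x => p x = (u, j, θ) with hS₁
  obtain ⟨⟨F, h⟩, hc2⟩ := double (β := (Fin r → Fin (2 ^ (lam (2 * k) y * u))) ×
      (Fin n → Fin (2 ^ θ))) S₁
    (fun x Fh => Good D (2 ^ y) j (tt P ℓ (bd P ℓ v₀ x) r x) Fh.1 Fh.2) (by
      intro x hx
      have hx' := (mem_filter.1 hx).2
      have := hp' x
      rw [hx'] at this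
      rw [Fintype.card_prod, Fintype.card_fun, Fintype.card_fun]
      simp only [Fintype.card_fin]
      exact this)
  set S₂ := S₁.filter fun x => Good D (2 ^ y) j (tt P ℓ (bd P ℓ v₀ x) r x) F h with hS₂
  have hS₂S : ∀ x ∈ S₂, out (bd P ℓ v₀ x r) = false := fun x hx =>
    (mem_filter.1 (mem_filter.1 (mem_filter.1 hx).1).1).2
  -- the boundary states
  set bs : Inp n → (Fin (r + 1) → W) := fun x => fun s => bd P ℓ v₀ x s with hbs
  set G : Finset (Inp n) := univ.filter fun x : Inp n => out (bd P ℓ v₀ x r) = false ∧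
          ∃ j, qf (blk M e' x j) = 0 with hG
  have hclass : ∀ b ∈ S₂.image bs, 2 ^ Δ * (S₂.filter fun x => bs x = b).card ≤
      2 ^ Δ * (32 * (G.filter fun x => bs x = b).card) + 2 * ((Idx n e).card * 2 ^ n) := by
    intro b hb
    obtain ⟨x₀, hx₀, hx₀b⟩ := mem_image.1 hb
    set β : ℕ → W := fun s => if hs : s ≤ r then b ⟨s, by omega⟩ else v₀ with hβ
    have hβb : ∀ x, bs x = b ↔ ∀ s ≤ r, bd P ℓ v₀ x s = β s := by
      intro x
      constructor
      · intro hx s hs
        rw [hβ]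
        dsimp only
        rw [dif_pos hs, ← hx]
      · intro hx
        funext s
        have := hx s (by omega)
        rw [hβ] at this
        dsimp only at this
        rw [dif_pos (by omega : (s : ℕ) ≤ r)] at this
        exact this
    have hmix := mix_count hcor (P := P) (ℓ := ℓ) (v₀ := v₀) (β := β) (F := fun s => (F s : ℕ))
      (Z := univ.filter fun i => (h i : ℕ) = 0) (s := s) (Δ := Δ) (m := m) (e := e) (j := j) M e'
      hN hF hF2 hΔ hfib (fun x i => hcov x β i) (S₂.filter fun x => bs x = b) (by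
        intro x hx
        obtain ⟨hx1, hx2⟩ := mem_filter.1 hx
        have hbd := (hβb x).1 hx2
        have hgood := (mem_filter.1 hx1).2
        rw [tt_congr (β' := β) fun s hs => hbd s hs.le] at hgood
        obtain ⟨g1, g2, g3⟩ := hgood
        have hlb : ∀ a : ℕ, Lb P ℓ β (fun s => (F s : ℕ)) (univ.filter fun i => (h i : ℕ) = 0)
            a x = univ.filter fun i => (h i : ℕ) = 0 ∧ ∀ s ∈ tt P ℓ β r x i, (F s : ℕ) = a := by
          intro a
          unfold Lb
          rw [filter_filter]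
        have hm' : ∀ c, n ≤ 2 * D * c → m ≤ c := fun c hc =>
          Nat.le_of_mul_le_mul_left (hm.trans hc) (by positivity)
        refine ⟨hbd, ?_, ?_, ?_⟩
        · have h4 : Ex P ℓ β (fun s => (F s : ℕ)) (univ.filter fun i => (h i : ℕ) = 0) j x =
              univ.filter fun i => (h i : ℕ) = 0 ∧ (tt P ℓ β r x i).card ≠ j ∧
                ∀ s ∈ tt P ℓ β r x i, (F s : ℕ) = 0 ∨ (F s : ℕ) = 1 := by
            unfold Ex
            rw [filter_filter]
          rw [h4]
          have h5 := g3.trans_lt he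
          have h6 := Nat.lt_of_mul_lt_mul_left h5
          omega
        · rw [hlb 0]
          exact hm' _ g1
        · rw [hlb 1]
          exact hm' _ g2)
    refine hmix.trans ?_
    apply Nat.add_le_add_right
    apply Nat.mul_le_mul_left
    apply Nat.mul_le_mul_left
    apply card_le_card
    intro z hz
    obtain ⟨-, hz1, hz2⟩ := mem_filter.1 hz
    refine mem_filter.2 ⟨mem_filter.2 ⟨mem_univ _, ?_, hz2⟩, (hβb z).2 hz1⟩
    rw [hz1 r le_rfl, ← (hβb x₀).1 hx₀b r le_rfl]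
    exact hS₂S x₀ hx₀
  have hS₂c : 2 ^ Δ * S₂.card ≤ 2 ^ Δ * (32 * G.card) +
      Nat.card W ^ (r + 1) * (2 * ((Idx n e).card * 2 ^ n)) := by
    have h2 : S₂.card = ∑ b ∈ S₂.image bs, (S₂.filter fun x => bs x = b).card :=
      card_eq_sum_card_image _ _
    have h3 : ∑ b ∈ S₂.image bs, (G.filter fun x => bs x = b).card ≤ G.card := by
      rw [sum_congr rfl fun b (_ : b ∈ S₂.image bs) => card_filter (fun x => bs x = b) G,
        sum_comm, card_eq_sum_ones]
      apply sum_le_sum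
      intro z _
      rw [sum_ite_eq]
      split_ifs <;> simp
    have h4 : (S₂.image bs).card ≤ Nat.card W ^ (r + 1) := by
      refine (card_le_univ _).trans ?_
      rw [Fintype.card_fun, Fintype.card_fin, Nat.card_eq_fintype_card]
    calc 2 ^ Δ * S₂.card = ∑ b ∈ S₂.image bs, 2 ^ Δ * (S₂.filter fun x => bs x = b).card := by
          rw [h2, mul_sum]
      _ ≤ ∑ b ∈ S₂.image bs, (2 ^ Δ * (32 * (G.filter fun x => bs x = b).card) +
          2 * ((Idx n e).card * 2 ^ n)) := sum_le_sum hclass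
      _ = 2 ^ Δ * (32 * ∑ b ∈ S₂.image bs, (G.filter fun x => bs x = b).card) +
          (S₂.image bs).card * (2 * ((Idx n e).card * 2 ^ n)) := by
        rw [sum_add_distrib, mul_sum, mul_sum, sum_const, smul_eq_mul]
      _ ≤ _ := Nat.add_le_add (Nat.mul_le_mul_left _ (Nat.mul_le_mul_left _ h3))
        (Nat.mul_le_mul_right _ h4)
  rw [card_product, card_product, Nat.card_Icc, Nat.card_Icc, card_range,
    Nat.add_sub_cancel, Nat.add_sub_cancel] at hc1
  calc 2 ^ Δ * S.card ≤ 2 ^ Δ * ((2 * (2 * k) * (2 * k * (dex (2 * k) y + 1))) * S₁.card) :=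
        Nat.mul_le_mul_left _ hc1
    _ ≤ 2 ^ Δ * ((2 * (2 * k) * (2 * k * (dex (2 * k) y + 1))) * (2 * S₂.card)) :=
        Nat.mul_le_mul_left _ (Nat.mul_le_mul_left _ hc2)
    _ = 2 * (2 * (2 * k) * (2 * k) * (dex (2 * k) y + 1)) * (2 ^ Δ * S₂.card) := by ring
    _ ≤ _ := Nat.mul_le_mul_left _ hS₂c

end Pool.Agent.L0h32.LT2
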