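import Pool.Agent.L0h32.LT.Stm

/-!
# One-pass nondeterministic programs against randomized programs of linear length: the parts
-/

set_option autoImplicit false

namespace Pool.Agent.L0h32.LT2

open Finset Pool.Agent.L0h32.LT

/-! ### The function -/

/-- The quadratic form. -/
def qf {F : Type} [Field F] (u : Fin 6 → F) : F := u 0 * u 3 + u 1 * u 4 + u 2 * u 5

/-- The blocks of linear forms. -/
def blk {n N ρ : ℕ} {F : Type} [Field F] (M : Fin n → (Fin N × Fin 6 × Fin ρ → ZMod 2))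
    (e : (Fin ρ → ZMod 2) → F) (x : Inp n) (j : Fin N) : Fin 6 → F :=
  fun c => ∑ i, if x i then e (fun a => M i (j, c, a)) else 0

/-! ### Rectangles are corrupted -/

open Classical in
/-- The values of `a` are spread up to `s` bits. -/
def Spread {N : ℕ} {F X : Type} [Fintype F] [Fintype X] (s : ℕ)
    (a : X → Fin N → (Fin 6 → F)) : Prop :=
  ∀ (I : Finset (Fin N)) (z : Fin N → (Fin 6 → F)),
    (univ.filter fun x => ∀ j ∈ I, a x j = z j).card * Fintype.card F ^ (6 * I.card) ≤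
      2 ^ s * Fintype.card X

open Classical in
/-- The values of `a` on `S` are dense outside of `I`. -/
def Dense {N : ℕ} {F X : Type} [Fintype F] (S : Finset X) (a : X → Fin N → (Fin 6 → F))
    (I : Finset (Fin N)) : Prop :=
  ∀ (J : Finset (Fin N)) (z : Fin N → (Fin 6 → F)), Disjoint J I →
    (S.filter fun x => ∀ j ∈ J, a x j = z j).card * Fintype.card F ^ (5 * J.card) ≤ S.card

open Classical in
/-- The pairs for which one of the forms vanishes. -/
noncomputable def hits {N : ℕ} {F X Y : Type} [Field F] (S : Finset X) (T : Finset Y)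
    (a : X → Fin N → (Fin 6 → F)) (b : Y → Fin N → (Fin 6 → F)) : Finset (X × Y) :=
  (S ×ˢ T).filter fun p => ∃ j, qf (fun c => a p.1 j c + b p.2 j c) = 0

/-- **Dense rectangles.** Second moment method and character sums. -/
def S_DEN : Prop :=
  ∀ (N : ℕ) (F X Y : Type) [Field F] [Fintype F] [CharP F 2] (S : Finset X) (T : Finset Y)
    (a : X → Fin N → (Fin 6 → F)) (b : Y → Fin N → (Fin 6 → F)) (I I' : Finset (Fin N)),
    4 ≤ N → Fintype.card F = 4 * N → 4 * I.card ≤ N → 4 * I'.card ≤ N →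
    Dense S a I → Dense T b I' → S.card * T.card ≤ 32 * (hits S T a b).card

/-- **Corruption.** -/
def S_COR : Prop :=
  ∀ (N ρ s Δ : ℕ) (F X Y : Type) [Field F] [Fintype F] [CharP F 2] [Fintype X] [Fintype Y]
    (a : X → Fin N → (Fin 6 → F)) (b : Y → Fin N → (Fin 6 → F)),
    4 ≤ N → Fintype.card F = 4 * N → Fintype.card F = 2 ^ ρ → 4 * (s + Δ) ≤ ρ * N →
    Spread s a → Spread s b → ∀ (S : Finset X) (T : Finset Y),
      2 ^ Δ * (S.card * T.card) ≤ 2 ^ Δ * (32 * (hits S T a b).card) +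
        (Fintype.card X * T.card + S.card * Fintype.card Y)

/-- **Uniform inputs.** At least half of the inputs are no-instances. -/
def S_ZER : Prop :=
  ∀ (N s : ℕ) (F X Y : Type) [Field F] [Fintype F] [CharP F 2] [Fintype X] [Fintype Y]
    (a : X → Fin N → (Fin 6 → F)) (b : Y → Fin N → (Fin 6 → F)),
    Fintype.card F = 4 * N → 2 ^ s ≤ Fintype.card F → Spread s a → Spread s b →
      2 * (hits univ univ a b).card ≤ Fintype.card X * Fintype.card Y

open Classical in
/-- **Fibres.** -/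
def S_FIB : Prop :=
  ∀ (n N ρ s : ℕ) (F : Type) [Field F] [Fintype F] [Algebra (ZMod 2) F]
    (e : (Fin ρ → ZMod 2) ≃ₗ[ZMod 2] F) (M : Fin n → (Fin N × Fin 6 × Fin ρ → ZMod 2))
    (A : Finset (Fin n)),
    N * (6 * ρ) ≤ Module.finrank (ZMod 2) (Submodule.span (ZMod 2) (M '' A)) + s →
    ∀ (I : Finset (Fin N)) (z : Fin N → (Fin 6 → F)),
      (univ.filter fun x : Inp n => (∀ i, i ∉ A → x i = false) ∧
        ∀ j ∈ I, blk M e x j = z j).card * Fintype.card F ^ (6 * I.card) ≤ 2 ^ (A.card + s)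

/-! ### Selection -/

/-- The exponent of the gap. -/
def lam (J y : ℕ) : ℕ := 2 * J + y + 3

/-- The exponent of `D`. -/
def dex (J y : ℕ) : ℕ := 2 * lam J y * J ^ 2 + 2 * J + 2

open Classical in
/-- **Selection.** For every reading pattern there are a number of labels `2 ^ (lam u)`, a
multiplicity `j` and a sampling rate `2 ^ (-θ)` such that at least half of the labellings are good. -/
def S_SEL2 : Prop :=
  ∀ (k y n r ℓ : ℕ), 1 ≤ k →
    64 * 2 ^ dex (2 * k) y * (2 * k * ℓ + 1) ≤ n →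
    ∀ t : Fin n → Finset (Fin r), (∀ i, (t i).Nonempty) → (∑ i, (t i).card ≤ k * n) →
      (∀ s, (univ.filter fun i => s ∈ t i).card ≤ ℓ) →
      ∃ u j θ : ℕ, 1 ≤ u ∧ u ≤ 2 * (2 * k) ∧ 1 ≤ j ∧ j ≤ 2 * k ∧ θ ≤ dex (2 * k) y ∧
        (2 ^ (lam (2 * k) y * u)) ^ r * (2 ^ θ) ^ n ≤
          2 * (univ.filter fun Fh : (Fin r → Fin (2 ^ (lam (2 * k) y * u))) ×
            (Fin n → Fin (2 ^ θ)) =>
              Good (2 ^ dex (2 * k) y) (2 ^ y) j t Fh.1 Fh.2).card

/-! ### The nondeterministic program -/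

/-- **Guessing.** A one-pass nondeterministic program with `ρ - 2` guesses. -/
def S_NON : Prop :=
  ∀ (n N ρ : ℕ) (F : Type) [Field F] [Fintype F]
    (e : (Fin ρ → ZMod 2) → F) (M : Fin n → (Fin N × Fin 6 × Fin ρ → ZMod 2)),
    2 ≤ ρ → Fintype.card F = 2 ^ ρ → Fintype.card F = 4 * N →
    ∃ (V : Type) (_ : Finite V) (start : (Fin (ρ - 2) → Bool) → V) (next : Fin n → V → Bool → V)
      (acc : V → Prop), Nat.card V ≤ 2 ^ (7 * ρ) ∧
        ∀ x : Inp n, (∃ j, qf (blk M e x j) = 0) ↔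
          ∃ ω, acc ((List.finRange n).foldl (fun v i => next i v (x i)) (start ω))

/-! ### Amplification -/

open Classical in
/-- **Amplification.** -/
def S_AMP : Prop :=
  ∀ (Ω X : Type) [Fintype Ω] [Nonempty Ω] [Fintype X] (c : Ω → X → Prop),
    (∀ x, 2 * Fintype.card Ω ≤ 3 * (univ.filter fun ω => c ω x).card) →
    ∀ r : ℕ, ∃ w : Fin r → Ω,
      ((univ.filter fun x => 2 * (univ.filter fun i => c (w i) x).card ≤ r).card : ℝ) ≤
        (19 / 20 : ℝ) ^ r * Fintype.card X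

/-! ### Parameters -/

/-- **Parameters.** -/
def S_PAR2 : Prop :=
  ∀ J : ℕ, 2 ≤ J → ∃ y : ℕ, 2 ^ 17 * (dex J y + 15) ≤ 2 ^ y ∧
    2 * J * J * (dex J y + 1) ≤ 3072 * J ^ 5

end Pool.Agent.L0h32.LT2
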