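import Pool.Agent.L0h32.LT.Count
import Pool.Agent.L0h32.LT2.Stm

/-!
# Rectangles of a machine, with errors
-/

set_option autoImplicit false

namespace Pool.Agent.L0h32.LT2

open Finset Pool.Agent.L0h32.LT

variable {n : ℕ} {W : Type}

/-- The input without the part on `C`. -/
def ers (C : Finset (Fin n)) (x : Inp n) : Inp n := fun i => if i ∈ C then false else x i

/-- The rectangle of an input. -/
def key (P : Mach n W) (ℓ : ℕ) (β : ℕ → W) {r : ℕ} (F : Fin r → ℕ) (Z : Finset (Fin n))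
    (a b : ℕ) (x : Inp n) : Finset (Fin n) × Finset (Fin n) × Inp n :=
  (Lb P ℓ β F Z a x, Lb P ℓ β F Z b x, ers (Lb P ℓ β F Z a x ∪ Lb P ℓ β F Z b x) x)

theorem agree_of_key {P : Mach n W} {ℓ : ℕ} {β : ℕ → W} {r : ℕ} {F : Fin r → ℕ}
    {Z : Finset (Fin n)} {a b : ℕ} {x y : Inp n} (h : key P ℓ β F Z a b x = key P ℓ β F Z a b y) :
    Lb P ℓ β F Z a x = Lb P ℓ β F Z a y ∧ Lb P ℓ β F Z b x = Lb P ℓ β F Z b y ∧
      ∀ i, i ∉ Lb P ℓ β F Z a x → i ∉ Lb P ℓ β F Z b x → x i = y i := by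
  have h1 : Lb P ℓ β F Z a x = Lb P ℓ β F Z a y := congrArg Prod.fst h
  have h2 : Lb P ℓ β F Z b x = Lb P ℓ β F Z b y := congrArg (fun q => q.2.1) h
  refine ⟨h1, h2, fun i hi hi' => ?_⟩
  have h3 : ers (Lb P ℓ β F Z a x ∪ Lb P ℓ β F Z b x) x =
      ers (Lb P ℓ β F Z a y ∪ Lb P ℓ β F Z b y) y := congrArg (fun q => q.2.2) h
  have h4 := congrFun h3 i
  unfold ers at h4
  rw [if_neg (by rw [mem_union]; tauto), if_neg (by rw [← h1, ← h2, mem_union]; tauto)] at h4
  exact h4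

theorem key_of_agree {P : Mach n W} {ℓ : ℕ} {β : ℕ → W} {r : ℕ} {F : Fin r → ℕ}
    {Z : Finset (Fin n)} {a b : ℕ} {x y : Inp n} (h1 : Lb P ℓ β F Z a x = Lb P ℓ β F Z a y)
    (h2 : Lb P ℓ β F Z b x = Lb P ℓ β F Z b y)
    (h3 : ∀ i, i ∉ Lb P ℓ β F Z a x → i ∉ Lb P ℓ β F Z b x → x i = y i) :
    key P ℓ β F Z a b x = key P ℓ β F Z a b y := by
  unfold key
  rw [← h1, ← h2]
  refine Prod.ext rfl (Prod.ext rfl ?_)
  funext i
  unfold ers
  dsimp only
  split_ifs with h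
  · rfl
  · rw [mem_union, not_or] at h
    exact h3 i h.1 h.2

open Classical in
/-- The rectangles do not cover an input too often. -/
theorem cover {P : Mach n W} {ℓ : ℕ} {β : ℕ → W} {r : ℕ} {F : Fin r → ℕ}
    {Z : Finset (Fin n)} {j e a b : ℕ} (hab : (a = 0 ∧ b = 1) ∨ (a = 1 ∧ b = 0))
    (T : Finset (Inp n)) (hE : ∀ x ∈ T, (Ex P ℓ β F Z j x).card ≤ e)
    (hdis : ∀ x ∈ T, Disjoint (Lb P ℓ β F Z a x) (Lb P ℓ β F Z b x)) :
    ∑ c ∈ T.image (key P ℓ β F Z a b), 2 ^ c.1.card *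
      ((T.filter fun x => key P ℓ β F Z a b x = c).image (rst c.2.1)).card ≤
        (Idx n e).card * 2 ^ n := by
  -- representatives
  obtain ⟨Y, hYT, hYinj, hYim⟩ := Finset.exists_subset_injOn_image_eq_of_surjOn
    (f := fun y => (key P ℓ β F Z a b y, rst (Lb P ℓ β F Z b y) y)) (T : Set (Inp n))
    (T.image fun y => (key P ℓ β F Z a b y, rst (Lb P ℓ β F Z b y) y)) (by
      rw [coe_image]
      exact Set.surjOn_image _ _)
  replace hYT : Y ⊆ T := fun y hy => by exact_mod_cast hYT (mem_coe.2 hy)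
  have h1 : ∀ c ∈ T.image (key P ℓ β F Z a b), 2 ^ c.1.card *
      ((T.filter fun x => key P ℓ β F Z a b x = c).image (rst c.2.1)).card ≤
        ∑ y ∈ Y.filter (fun y => key P ℓ β F Z a b y = c), 2 ^ (Lb P ℓ β F Z a y).card := by
    intro c _
    have h2 : ∀ y ∈ Y.filter (fun y => key P ℓ β F Z a b y = c),
        2 ^ (Lb P ℓ β F Z a y).card = 2 ^ c.1.card := by
      intro y hy
      rw [← (mem_filter.1 hy).2]
      rfl
    rw [sum_congr rfl h2, sum_const, smul_eq_mul, mul_comm]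
    apply Nat.mul_le_mul_right
    have h3 : (T.filter fun x => key P ℓ β F Z a b x = c).image (rst c.2.1) ⊆
        (Y.filter fun y => key P ℓ β F Z a b y = c).image (rst c.2.1) := by
      intro v hv
      obtain ⟨x, hx, rfl⟩ := mem_image.1 hv
      obtain ⟨hxT, hxc⟩ := mem_filter.1 hx
      have h4 : (key P ℓ β F Z a b x, rst (Lb P ℓ β F Z b x) x) ∈
          T.image (fun y => (key P ℓ β F Z a b y, rst (Lb P ℓ β F Z b y) y)) :=
        mem_image_of_mem (fun y => (key P ℓ β F Z a b y, rst (Lb P ℓ β F Z b y) y)) hxT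
      rw [← hYim] at h4
      obtain ⟨y, hyY, hy⟩ := mem_image.1 h4
      have h5 : key P ℓ β F Z a b y = key P ℓ β F Z a b x := congrArg Prod.fst hy
      have h6 : rst (Lb P ℓ β F Z b y) y = rst (Lb P ℓ β F Z b x) x := congrArg Prod.snd hy
      have h7 : c.2.1 = Lb P ℓ β F Z b x := by rw [← hxc]; rfl
      refine mem_image.2 ⟨y, mem_filter.2 ⟨hyY, h5.trans hxc⟩, ?_⟩
      rw [h7, ← h6, (agree_of_key h5).2.1]
    exact (card_le_card h3).trans card_image_le
  refine (sum_le_sum h1).trans ?_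
  rw [sum_fiberwise_of_maps_to (fun y hy => mem_image_of_mem _ (hYT hy))]
  -- counting with cubes
  have h2 : ∑ y ∈ Y, 2 ^ (Lb P ℓ β F Z a y).card =
      ∑ z : Inp n, (Y.filter fun y => z ∈ cube (Lb P ℓ β F Z a y) y).card := by
    simp only [card_filter]
    rw [sum_comm]
    apply sum_congr rfl
    intro y _
    rw [← card_cube (Lb P ℓ β F Z a y) y, ← card_filter]
    congr 1
    ext z
    simp
  rw [h2]
  refine (sum_le_card_nsmul _ _ (Idx n e).card fun z _ => ?_).trans ?_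
  · apply card_le_card_of_injOn
      (fun y => (Ex P ℓ β F Z j y, Ex P ℓ β F Z j y ∩ Lb P ℓ β F Z b y))
    · intro y hy
      obtain ⟨hyY, _⟩ := mem_filter.1 (mem_coe.1 hy)
      exact mem_coe.2 (mem_filter.2 ⟨mem_univ _, inter_subset_left, hE y (hYT hyY)⟩)
    · intro y hy y' hy' hp
      obtain ⟨hyY, hz⟩ := mem_filter.1 (mem_coe.1 hy)
      obtain ⟨hyY', hz'⟩ := mem_filter.1 (mem_coe.1 hy')
      rw [mem_cube] at hz hz'
      have h3 : ∀ i, i ∉ Lb P ℓ β F Z a y → i ∉ Lb P ℓ β F Z a y' → y i = y' i :=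
        fun i hi hi' => by rw [← hz i hi, hz' i hi']
      have h4 := Lb_eq h3
      have hp1 : Ex P ℓ β F Z j y = Ex P ℓ β F Z j y' := congrArg Prod.fst hp
      have hp2 : Ex P ℓ β F Z j y ∩ Lb P ℓ β F Z b y = Ex P ℓ β F Z j y' ∩ Lb P ℓ β F Z b y' :=
        congrArg Prod.snd hp
      have h5 := other_eq hab h3 hp1 hp2
      have h6 : ∀ i, i ∉ Lb P ℓ β F Z a y → y i = y' i := fun i hi => h3 i hi (by rw [← h4]; exact hi)
      apply hYinj (mem_coe.2 hyY) (mem_coe.2 hyY')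
      refine Prod.ext (key_of_agree h4 h5 fun i hi _ => h6 i hi) ?_
      dsimp only
      rw [← h5]
      funext i
      unfold rst
      split_ifs with hi
      · exact h6 i fun hi' => (disjoint_left.1 (hdis y (hYT hyY)) hi' hi)
      · rfl
  · rw [smul_eq_mul, card_univ, Fintype.card_fun, Fintype.card_bool, Fintype.card_fin, mul_comm]

end Pool.Agent.L0h32.LT2
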