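import Pool.Agent.L0h32.LT2.CoComb
import Pool.Agent.L0h6.LT2.Sel2
import Pool.Agent.L0h44.LT2.Cor
import Pool.Agent.L0h44.LT2.Par
import Pool.Agent.L0h55.LT2.Fin
import Pool.Agent.L0h90.LT2.Amp
import Pool.Agent.L0h90.LT2.Non
import Pool.Agent.LLead.LT.Cnt
import Pool.Agent.LLead.LT.Rnk
import Pool.Agent.LLead.LT2.Fib

/-!
# `NP` versus `BPP` in linear time and sublinear space

There are Boolean functions `g n` which are computed by nondeterministic programs that guess at
most `log n` bits and then read the input only once, from left to right, with at most `n ^ 8`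
memory states; but every randomized program with two-sided error `1 / 3` for `g n` needs, for
every `k`, more than `k n` steps or more than `2 ^ (γ n)` nodes.

We show: there is a distribution of labels of the segments of a computation such that almost
all inputs read with the same states at the ends of the segments lie in large rectangles, and the loss is
polynomial in `k` only, so that the error can be made small enough by repetition; and large
rectangles contain a constant proportion of inputs for which one of the quadratic forms
`u₀ u₃ + u₁ u₄ + u₂ u₅` over a field with about `n / log n` elements vanishes at one of the blocks.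
-/

set_option autoImplicit false

namespace Pool.Agent.Results.MP_b573ec_lc.NondeterminismLinearTime

/-- A deterministic branching program for inputs of `n` bits with the set `V` of nodes; cycles are
allowed. A node `v` with `out v = none` reads the variable `var v`, a node `v` with `out v = some b`
is a sink with the answer `b`. -/
structure BranchingProgram (n : ℕ) (V : Type) where
  start : V
  var : V → Fin n
  next : V → Bool → V
  out : V → Option Bool

/-- One step of the computation. -/
def BranchingProgram.step {n : ℕ} {V : Type} (P : BranchingProgram n V) (x : Fin n → Bool)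
    (v : V) : V :=
  if (P.out v).isSome then v else P.next v (x (P.var v))

/-- The answer for the input `x` after `t` steps; it is `none` if no sink has been reached. -/
def BranchingProgram.answer {n : ℕ} {V : Type} (P : BranchingProgram n V) (x : Fin n → Bool)
    (t : ℕ) : Option Bool :=
  P.out ((P.step x)^[t] P.start)

/-- A randomized branching program is a family `P` of branching programs with the same set of nodes,
from which one is chosen at random, with the uniform distribution on the finite set `Ω`. This is
the probability that the answer for the input `x` is `a` after at most `t` steps. -/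
noncomputable def prob {n : ℕ} {V Ω : Type} (P : Ω → BranchingProgram n V) (x : Fin n → Bool)
    (t : ℕ) (a : Bool) : ℝ :=
  (Nat.card {ω : Ω // (P ω).answer x t = some a} : ℝ) / (Nat.card Ω : ℝ)

/-- A one-pass program for inputs of `n` bits with the set `V` of memory states: it first obtains
`ρ` bits (random bits or guesses), and then it reads the input once, from left to right. -/
structure OnePassProgram (n ρ : ℕ) (V : Type) where
  start : (Fin ρ → Bool) → V
  next : Fin n → V → Bool → V
  acc : V → Prop

/-- The program accepts the input `x` if the bits are `ω`. -/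
def OnePassProgram.Accepts {n ρ : ℕ} {V : Type} (P : OnePassProgram n ρ V) (ω : Fin ρ → Bool)
    (x : Fin n → Bool) : Prop :=
  P.acc ((List.finRange n).foldl (fun v i => P.next i v (x i)) (P.start ω))

/-- The program decides `f` nondeterministically. -/
def OnePassProgram.DecidesN {n ρ : ℕ} {V : Type} (P : OnePassProgram n ρ V)
    (f : (Fin n → Bool) → Bool) : Prop :=
  ∀ x, f x = true ↔ ∃ ω, P.Accepts ω x

/-- **`NP` is not contained in `BPP` in linear time and space `γ n`.** -/
theorem result :
    ∃ g : (n : ℕ) → (Fin n → Bool) → Bool,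
      (∀ n, 1 ≤ n → ∃ (ρ : ℕ) (V : Type) (_ : Finite V) (P : OnePassProgram n ρ V),
        2 ^ ρ ≤ n ∧ Nat.card V ≤ n ^ 8 ∧ P.DecidesN (g n)) ∧
      ∀ k : ℕ, ∃ γ : ℝ, 0 < γ ∧ ∃ n₀ : ℕ, ∀ n ≥ n₀,
        ∀ (V Ω : Type) (_ : Finite V) (_ : Finite Ω) (_ : Nonempty Ω)
          (P : Ω → BranchingProgram n V),
          (∀ x, (2 / 3 : ℝ) ≤ prob P x (k * n) (g n x)) → (2 : ℝ) ^ (γ * n) < Nat.card V := by
  classical
  have hcard : ∀ {n : ℕ} {V Ω : Type} [Fintype Ω] (P : Ω → BranchingProgram n V)
      (x : Fin n → Bool) (t : ℕ) (a : Bool),
      prob P x t a = ((Finset.univ.filter fun ω => (P ω).answer x t = some a).card : ℝ) /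
        (Fintype.card Ω : ℝ) := by
    intro n V Ω _ P x t a
    unfold prob
    rw [Nat.card_eq_fintype_card, Nat.card_eq_fintype_card, Fintype.card_subtype]
  obtain ⟨g, hg, hg'⟩ := Pool.Agent.L0h32.LT2.all_lengths2 Pool.Agent.L0h6.LT2.t_SEL2
    (Pool.Agent.L0h44.LT2.t_COR Pool.Agent.L0h55.LT2.t_DEN) Pool.Agent.L0h55.LT2.t_ZER
    Pool.Agent.LLead.LT2.t_FIB Pool.Agent.L0h90.LT2.t_NON Pool.Agent.L0h44.LT2.t_PAR2
    Pool.Agent.LLead.LT.t_RNK Pool.Agent.LLead.LT.t_CNT Pool.Agent.L0h90.LT2.t_AMP
  refine ⟨g, fun n hn => ?_, fun k => ?_⟩
  · obtain ⟨ρ, hρ, V, hV, start, next, acc, hcard, hdec⟩ := hg n hn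
    exact ⟨ρ, V, hV, ⟨start, next, acc⟩, hρ, hcard, hdec⟩
  · obtain ⟨γ, hγ, n₀, hn₀⟩ := hg' k
    refine ⟨γ, hγ, n₀, fun n hn V Ω hV hΩ hne P h1 => ?_⟩
    have : Fintype Ω := Fintype.ofFinite Ω
    refine hn₀ n hn V Ω hV this hne (fun ω => (P ω).start) (fun ω => (P ω).var)
      (fun ω => (P ω).next) (fun ω => (P ω).out) fun x => ?_
    have h3 := h1 x
    have hpos : (0 : ℝ) < Fintype.card Ω := by exact_mod_cast Fintype.card_pos
    rw [hcard, le_div_iff₀ hpos] at h3
    have h4 : (2 : ℝ) * Fintype.card Ω ≤ 3 * ((Finset.univ.filter fun ω =>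
        (P ω).answer x (k * n) = some (g n x)).card : ℝ) := by linarith
    have h5 : 2 * Fintype.card Ω ≤ 3 * (Finset.univ.filter fun ω =>
        (P ω).answer x (k * n) = some (g n x)).card := by exact_mod_cast h4
    exact h5

end Pool.Agent.Results.MP_b573ec_lc.NondeterminismLinearTime
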