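import Pool.Agent.L0h32.LT2.Zero

/-!
# Padding, and several programs one after the other
-/

set_option autoImplicit false

namespace Pool.Agent.L0h32.LT2

open Finset Pool.Agent.L0h32.LT

variable {n : ℕ} {W : Type}

/-! ### Padding -/

/-- After the time `T` the machine reads all variables without changing its state. -/
def padM (hn : 0 < n) (P : Mach n W) (T : ℕ) : Mach n W where
  q τ v := if τ < T then P.q τ v else ⟨(τ - T) % n, Nat.mod_lt _ hn⟩
  δ τ v b := if τ < T then P.δ τ v b else v

theorem run_padM (hn : 0 < n) (P : Mach n W) (T : ℕ) (x : Inp n) (v : W) :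
    ∀ t ≤ T, (padM hn P T).run x 0 v t = P.run x 0 v t := by
  intro t
  induction t with
  | zero => intro _; rfl
  | succ t ih =>
    intro ht
    have h1 := ih (by omega)
    show (padM hn P T).δ (0 + t) ((padM hn P T).run x 0 v t)
      (x ((padM hn P T).q (0 + t) ((padM hn P T).run x 0 v t))) =
        P.δ (0 + t) (P.run x 0 v t) (x (P.q (0 + t) (P.run x 0 v t)))
    rw [h1, Nat.zero_add]
    show (if t < T then P.δ t (P.run x 0 v t)
      (x (if t < T then P.q t (P.run x 0 v t) else ⟨(t - T) % n, Nat.mod_lt _ hn⟩)) else _) = _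
    rw [if_pos (by omega), if_pos (by omega)]

theorem run_padM_late (hn : 0 < n) (P : Mach n W) (T : ℕ) (x : Inp n) (v : W) (t : ℕ) :
    (padM hn P T).run x 0 v (T + t) = P.run x 0 v T := by
  induction t with
  | zero => exact run_padM hn P T x v T le_rfl
  | succ t ih =>
    rw [← ih]
    show (padM hn P T).δ (0 + (T + t)) _ _ = _
    rw [Nat.zero_add]
    show (if T + t < T then _ else (padM hn P T).run x 0 v (T + t)) = _
    rw [if_neg (by omega)]

theorem cov_padM (hn : 0 < n) (P : Mach n W) (T : ℕ) {ℓ r : ℕ} (hl : 1 ≤ ℓ)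
    (hrl : T + n ≤ r * ℓ) (β : ℕ → W) (x : Inp n) (i : Fin n) :
    (tt (padM hn P T) ℓ β r x i).Nonempty := by
  have h1 : (T + i) / ℓ < r := by
    rw [Nat.div_lt_iff_lt_mul (by omega)]
    have := i.isLt
    omega
  refine ⟨⟨(T + i) / ℓ, h1⟩, mem_filter.2 ⟨mem_univ _, ?_⟩⟩
  unfold seg Mach.rd
  refine mem_image.2 ⟨(T + i) % ℓ, mem_range.2 (Nat.mod_lt _ (by omega)), ?_⟩
  have h2 : (T + (i : ℕ)) / ℓ * ℓ + (T + i) % ℓ = T + i := by
    rw [mul_comm]
    exact Nat.div_add_mod _ _
  show (padM hn P T).q ((T + (i : ℕ)) / ℓ * ℓ + (T + i) % ℓ) _ = i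
  rw [h2]
  unfold padM
  dsimp only
  rw [if_neg (by omega)]
  apply Fin.ext
  show (T + (i : ℕ) - T) % n = i
  rw [Nat.add_sub_cancel_left]
  exact Nat.mod_eq_of_lt i.isLt

/-! ### Several programs one after the other -/

variable {V : Type} {r : ℕ}

/-- One step of the program `i`. -/
def stp (var : V → Fin n) (next : V → Bool → V) (out : V → Option Bool) (x : Inp n) (v : V) : V :=
  if (out v).isSome then v else next v (x (var v))

/-- The programs run one after the other, each for `T` steps. -/
def seqM (hn : 0 < n) (T : ℕ) (var : Fin r → V → Fin n) (next : Fin r → V → Bool → V)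
    (out : Fin r → V → Option Bool) : Mach n (Fin r → V) where
  q τ w := if h : τ / T < r then var ⟨τ / T, h⟩ (w ⟨τ / T, h⟩) else ⟨0, hn⟩
  δ τ w b := if h : τ / T < r then Function.update w ⟨τ / T, h⟩
    (if (out ⟨τ / T, h⟩ (w ⟨τ / T, h⟩)).isSome then w ⟨τ / T, h⟩ else
      next ⟨τ / T, h⟩ (w ⟨τ / T, h⟩) b) else w

theorem run_seqM (hn : 0 < n) {T : ℕ} (hT : 0 < T) (var : Fin r → V → Fin n)
    (next : Fin r → V → Bool → V) (out : Fin r → V → Option Bool) (start : Fin r → V)
    (x : Inp n) : ∀ τ ≤ r * T, (seqM hn T var next out).run x 0 start τ =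
      fun i => (stp (var i) (next i) (out i) x)^[min T (τ - i * T)] (start i) := by
  intro τ
  induction τ with
  | zero =>
    intro _
    funext i
    simp [Mach.run]
  | succ τ ih =>
    intro hτ
    have h1 := ih (by omega)
    have hi : τ / T < r := by
      rw [Nat.div_lt_iff_lt_mul hT]
      omega
    show (seqM hn T var next out).δ (0 + τ) ((seqM hn T var next out).run x 0 start τ)
      (x ((seqM hn T var next out).q (0 + τ) ((seqM hn T var next out).run x 0 start τ))) = _
    rw [h1, Nat.zero_add]
    unfold seqM
    dsimp only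
    rw [dif_pos hi, dif_pos hi]
    have hdm := Nat.div_add_mod τ T
    have hmod := Nat.mod_lt τ hT
    funext i
    by_cases hii : i = ⟨τ / T, hi⟩
    · subst hii
      rw [Function.update_self]
      dsimp only
      have h2 : min T (τ + 1 - τ / T * T) = min T (τ - τ / T * T) + 1 := by
        rw [mul_comm] at hdm
        omega
      rw [h2, Function.iterate_succ_apply']
      rfl
    · rw [Function.update_of_ne hii]
      have hne : (i : ℕ) ≠ τ / T := fun h => hii (Fin.ext h)
      congr 1
      rcases Nat.lt_or_gt_of_ne hne with h | h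
      · have h3 : (i : ℕ) * T + T ≤ τ := by
          have := Nat.mul_le_mul_right T (show (i : ℕ) + 1 ≤ τ / T by omega)
          rw [Nat.succ_mul] at this
          rw [mul_comm] at hdm
          omega
        have h4 : min T (τ - i * T) = T := min_eq_left (by omega)
        have h5 : min T (τ + 1 - i * T) = T := min_eq_left (by omega)
        rw [h4, h5]
      · have h3 : τ + 1 ≤ i * T := by
          have := Nat.mul_le_mul_right T (show τ / T + 1 ≤ (i : ℕ) by omega)
          rw [Nat.succ_mul] at this
          rw [mul_comm] at hdm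
          omega
        have h4 : τ - i * T = 0 := by omega
        have h5 : τ + 1 - i * T = 0 := by omega
        rw [h4, h5]

theorem run_seqM_end (hn : 0 < n) {T : ℕ} (hT : 0 < T) (var : Fin r → V → Fin n)
    (next : Fin r → V → Bool → V) (out : Fin r → V → Option Bool) (start : Fin r → V)
    (x : Inp n) : (seqM hn T var next out).run x 0 start (r * T) =
      fun i => (stp (var i) (next i) (out i) x)^[T] (start i) := by
  rw [run_seqM hn hT var next out start x _ le_rfl]
  funext i
  congr 1
  apply min_eq_left
  have := Nat.mul_le_mul_right T (show (i : ℕ) + 1 ≤ r from i.isLt)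
  rw [Nat.succ_mul] at this
  omega

/-! ### Amplification -/

open Classical in
/-- The majority of the answers. -/
noncomputable def maj (out : Fin r → V → Option Bool) (w : Fin r → V) : Bool :=
  decide (r < 2 * (univ.filter fun i => out i (w i) = some true).card)

open Classical in
theorem maj_err (out : Fin r → V → Option Bool) (w : Fin r → V) (a : Bool)
    (h : maj out w ≠ a) : 2 * (univ.filter fun i => out i (w i) = some a).card ≤ r := by
  cases a with
  | true =>
    by_contra hcon
    push Not at hcon
    exact h (decide_eq_true hcon)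
  | false =>
    have h1 : maj out w = true := by
      cases hm : maj out w with
      | true => rfl
      | false => exact absurd hm h
    have h2 := of_decide_eq_true h1
    have h3 : (univ.filter fun i => out i (w i) = some true).card +
        (univ.filter fun i => out i (w i) = some false).card ≤ r := by
      rw [← card_union_of_disjoint]
      · refine (card_le_univ _).trans ?_
        rw [Fintype.card_fin]
      · rw [disjoint_left]
        intro i hi hi'
        have e1 := (mem_filter.1 hi).2
        have e2 := (mem_filter.1 hi').2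
        rw [e1] at e2
        simp at e2
    omega

/-- Every machine which computes `f` with at most `δ 2 ^ n` errors in time `T` has more than `L`
states; `1 / δ = E`. -/
def HardM (n T E : ℕ) (L : ℝ) (f : Inp n → Bool) : Prop :=
  ∀ (W : Type) (_ : Finite W) (P : Mach n W) (v₀ : W) (out : W → Bool),
    E * (univ.filter fun x : Inp n => out (P.run x 0 v₀ T) ≠ f x).card ≤ 2 ^ n → L < Nat.card W

open Classical in
/-- Every randomized program which computes `f` in time `T` with error `1 / 3` has more than `L`
nodes. -/
def HardR (n T : ℕ) (L : ℝ) (f : Inp n → Bool) : Prop :=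
  ∀ (V Ω : Type) (_ : Finite V) (_ : Fintype Ω) (_ : Nonempty Ω) (start : Ω → V)
    (var : Ω → V → Fin n) (next : Ω → V → Bool → V) (out : Ω → V → Option Bool),
    (∀ x, 2 * Fintype.card Ω ≤ 3 * (univ.filter fun ω =>
      out ω ((stp (var ω) (next ω) (out ω) x)^[T] (start ω)) = some (f x)).card) →
        L < Nat.card V

theorem hardR_of_hardM (hamp : S_AMP) {T E r : ℕ} (hn : 0 < n) (hT : 0 < T) {L L' : ℝ}
    {f : Inp n → Bool} (hLL : L' ^ r ≤ L)
    (hE : (E : ℝ) * (19 / 20) ^ r ≤ 1) (h : HardM n (r * T) E L f) : HardR n T L' f := by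
  classical
  intro V Ω hV hΩ hne start var next out hcorr
  by_contra hcon
  push Not at hcon
  obtain ⟨c, hc⟩ : ∃ c : Ω → Inp n → Prop, ∀ ω x, c ω x ↔
    out ω ((stp (var ω) (next ω) (out ω) x)^[T] (start ω)) = some (f x) := ⟨_, fun _ _ => Iff.rfl⟩
  obtain ⟨w, hw⟩ := hamp Ω (Inp n) c (by
      intro x
      refine (hcorr x).trans (le_of_eq ?_)
      congr 2
      exact filter_congr fun ω _ => (hc ω x).symm) r
  have h1 := h (Fin r → V) inferInstance
    (seqM hn T (fun i => var (w i)) (fun i => next (w i)) (fun i => out (w i)))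
    (fun i => start (w i)) (maj fun i => out (w i)) (by
      have h2 : (univ.filter fun x : Inp n => maj (fun i => out (w i))
          ((seqM hn T (fun i => var (w i)) (fun i => next (w i)) (fun i => out (w i))).run x 0
            (fun i => start (w i)) (r * T)) ≠ f x).card ≤
          (univ.filter fun x => 2 * (univ.filter fun i : Fin r => c (w i) x).card ≤ r).card := by
        apply card_le_card
        intro x hx
        refine mem_filter.2 ⟨mem_univ _, ?_⟩
        have h3 := (mem_filter.1 hx).2
        rw [run_seqM_end hn hT] at h3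
        refine le_trans (le_of_eq ?_) (maj_err _ _ _ h3)
        congr 2
        exact filter_congr fun i _ => hc (w i) x
      have h3 : ((univ.filter fun x : Inp n => maj (fun i => out (w i))
          ((seqM hn T (fun i => var (w i)) (fun i => next (w i)) (fun i => out (w i))).run x 0
            (fun i => start (w i)) (r * T)) ≠ f x).card : ℝ) ≤ (19 / 20 : ℝ) ^ r * 2 ^ n := by
        refine (Nat.cast_le.2 h2).trans (hw.trans (le_of_eq ?_))
        rw [Fintype.card_fun, Fintype.card_bool, Fintype.card_fin]
        push_cast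
        rfl
      have h4 : (E : ℝ) * ((univ.filter fun x : Inp n => maj (fun i => out (w i))
          ((seqM hn T (fun i => var (w i)) (fun i => next (w i)) (fun i => out (w i))).run x 0
            (fun i => start (w i)) (r * T)) ≠ f x).card : ℝ) ≤ 2 ^ n := by
        calc _ ≤ (E : ℝ) * ((19 / 20 : ℝ) ^ r * 2 ^ n) :=
              mul_le_mul_of_nonneg_left h3 (Nat.cast_nonneg _)
          _ = ((E : ℝ) * (19 / 20 : ℝ) ^ r) * 2 ^ n := by ring
          _ ≤ 1 * 2 ^ n := mul_le_mul_of_nonneg_right hE (by positivity)
          _ = 2 ^ n := one_mul _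
      exact_mod_cast h4)
  have h2 : (Nat.card (Fin r → V) : ℝ) ≤ L' ^ r := by
    rw [Nat.card_fun, Nat.card_fin]
    push_cast
    exact pow_le_pow_left₀ (Nat.cast_nonneg _) hcon r
  linarith

end Pool.Agent.L0h32.LT2
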