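import Pool.Agent.L0h32.LT2.Core

/-!
# The no-instances, and the final computation
-/

set_option autoImplicit false

namespace Pool.Agent.L0h32.LT2

open Finset Pool.Agent.L0h32.LT

variable {n N ρ : ℕ} {W F' : Type} [Field F'] [Fintype F']

open Classical in
theorem zero_count (hzer : S_ZER) [CharP F' 2] {s m : ℕ}
    (M : Fin n → (Fin N × Fin 6 × Fin ρ → ZMod 2)) (e' : (Fin ρ → ZMod 2) → F')
    (hF : Fintype.card F' = 4 * N) (hs : 2 ^ s ≤ Fintype.card F')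
    (hfib : ∀ A : Finset (Fin n), m ≤ A.card → ∀ (I : Finset (Fin N)) (z : Fin N → (Fin 6 → F')),
      (univ.filter fun x : Inp n => (∀ i, i ∉ A → x i = false) ∧
        ∀ j ∈ I, blk M e' x j = z j).card * Fintype.card F' ^ (6 * I.card) ≤ 2 ^ (A.card + s))
    (hmn : 2 * m ≤ n) :
    2 * (univ.filter fun x : Inp n => ∃ j, qf (blk M e' x j) = 0).card ≤ 2 ^ n := by
  obtain ⟨A, -, hA⟩ := exists_subset_card_eq (s := (univ : Finset (Fin n))) (n := m)
    (by rw [card_univ, Fintype.card_fin]; omega)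
  have hB : m ≤ (Aᶜ).card := by
    rw [card_compl, Fintype.card_fin, hA]
    omega
  have h := hzer N s F' (Sup n A) (Sup n Aᶜ)
    (fun (x : Sup n A) (j : Fin N) (c : Fin 6) => blk M e' x.1 j c + (0 : F'))
    (fun (x : Sup n Aᶜ) (j : Fin N) (c : Fin 6) => blk M e' x.1 j c + (0 : F')) hF hs
    (spread_sup M e' (hfib A hA.ge) fun _ _ => (0 : F'))
    (spread_sup M e' (hfib Aᶜ hB) fun _ _ => (0 : F'))
  rw [card_sup, card_sup, ← pow_add, card_compl, Fintype.card_fin,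
    Nat.add_sub_cancel' (by rw [hA]; omega)] at h
  refine le_trans (Nat.mul_le_mul_left 2 ?_) h
  have hsup : ∀ (C : Finset (Fin n)) (x : Inp n), ∀ i, i ∉ C → rst C x i = false := by
    intro C x i hi
    unfold rst
    rw [if_neg hi]
  have hglue : ∀ x : Inp n, glue A Aᶜ (fun _ => false) (rst A x) (rst Aᶜ x) = x := by
    intro x
    funext i
    unfold glue rst
    by_cases hi : i ∈ A
    · rw [if_pos hi, if_pos hi]
    · rw [if_neg hi, if_pos (mem_compl.2 hi), if_pos (mem_compl.2 hi)]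
  apply card_le_card_of_injOn
    (fun x => ((⟨rst A x, hsup A x⟩ : Sup n A), (⟨rst Aᶜ x, hsup Aᶜ x⟩ : Sup n Aᶜ)))
  · intro x hx
    obtain ⟨j, hj⟩ := (mem_filter.1 (mem_coe.1 hx)).2
    refine mem_coe.2 (mem_filter.2 ⟨mem_product.2 ⟨mem_univ _, mem_univ _⟩, j, ?_⟩)
    refine Eq.trans (congrArg qf ?_) hj
    funext c
    have h1 := blk_glue (A := A) (B := Aᶜ) disjoint_compl_right (w := fun _ => false)
      (u := rst A x) (v := rst Aᶜ x) (hsup A x) (hsup Aᶜ x) (fun _ _ => rfl) M e' j c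
    rw [hglue] at h1
    have h2 : blk M e' (fun _ => false) j c = 0 := by
      unfold blk
      simp
    rw [h1, h2]
    dsimp only
    ring
  · intro x _ y _ hxy
    have h1 : rst A x = rst A y := congrArg (fun p => p.1.1) hxy
    have h2 : rst Aᶜ x = rst Aᶜ y := congrArg (fun p => p.2.1) hxy
    rw [← hglue x, ← hglue y, h1, h2]

open Classical in
/-- The core with few errors. -/
theorem core_few (hsel : S_SEL2) (hcor : S_COR) (hzer : S_ZER) [CharP F' 2]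
    {k y s Δ m e r ℓ : ℕ} (hk : 1 ≤ k)
    (P : Mach n W) [Finite W] (v₀ : W) (out : W → Bool)
    (hn : 64 * 2 ^ dex (2 * k) y * (2 * k * ℓ + 1) ≤ n) (hrl : r * ℓ ≤ k * n)
    (hm : 2 * 2 ^ dex (2 * k) y * m ≤ n) (he : 16 * n < 2 ^ y * 2 ^ dex (2 * k) y * (e + 1))
    (M : Fin n → (Fin N × Fin 6 × Fin ρ → ZMod 2)) (e' : (Fin ρ → ZMod 2) → F')
    (hN : 4 ≤ N) (hF : Fintype.card F' = 4 * N) (hF2 : Fintype.card F' = 2 ^ ρ)
    (hΔ : 4 * (s + Δ) ≤ ρ * N) (hs : 2 ^ s ≤ Fintype.card F') (hmn : 2 * m ≤ n)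
    (hfib : ∀ A : Finset (Fin n), m ≤ A.card → ∀ (I : Finset (Fin N)) (z : Fin N → (Fin 6 → F')),
      (univ.filter fun x : Inp n => (∀ i, i ∉ A → x i = false) ∧
        ∀ j ∈ I, blk M e' x j = z j).card * Fintype.card F' ^ (6 * I.card) ≤ 2 ^ (A.card + s))
    (hcov : ∀ (x : Inp n) (β : ℕ → W) (i : Fin n), (tt P ℓ β r x i).Nonempty)
    (herr : 512 * (2 * (2 * k) * (2 * k) * (dex (2 * k) y + 1)) *
      (univ.filter fun x : Inp n => out (bd P ℓ v₀ x r) ≠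
        decide (∃ j, qf (blk M e' x j) = 0)).card ≤ 2 ^ n) :
    2 ^ Δ ≤ 16 * (2 * (2 * k) * (2 * k) * (dex (2 * k) y + 1)) * Nat.card W ^ (r + 1) *
      (Idx n e).card * 2 ^ 0 := by
  have hcount := core_count hsel hcor hk P v₀ out hn hrl hm he M e' hN hF hF2 hΔ hfib hcov
  have hzero := zero_count hzer M e' hF hs hfib hmn
  obtain ⟨Lc, hLc⟩ : ∃ Lc, Lc = 2 * (2 * k) * (2 * k) * (dex (2 * k) y + 1) := ⟨_, rfl⟩
  have hLc1 : 1 ≤ Lc := by
    rw [hLc]
    have : 0 < 2 * (2 * k) * (2 * k) * (dex (2 * k) y + 1) := by positivity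
    exact this
  rw [← hLc] at hcount herr ⊢
  obtain ⟨err, herr'⟩ : ∃ err, err = (univ.filter fun x : Inp n => out (bd P ℓ v₀ x r) ≠
        decide (∃ j, qf (blk M e' x j) = 0)).card := ⟨_, rfl⟩
  rw [← herr'] at herr
  have h1 : (univ.filter fun x : Inp n => out (bd P ℓ v₀ x r) = false ∧
          ∃ j, qf (blk M e' x j) = 0).card ≤ err := by
    rw [herr']
    apply card_le_card
    intro x hx
    obtain ⟨-, hx1, hx2⟩ := mem_filter.1 hx
    refine mem_filter.2 ⟨mem_univ _, ?_⟩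
    rw [hx1, decide_eq_true hx2]
    simp
  have h2 : 2 ^ n ≤ (univ.filter fun x : Inp n => out (bd P ℓ v₀ x r) = false).card + err +
      (univ.filter fun x : Inp n => ∃ j, qf (blk M e' x j) = 0).card := by
    have h3 : (univ : Finset (Inp n)) ⊆
        ((univ.filter fun x : Inp n => out (bd P ℓ v₀ x r) = false) ∪
          (univ.filter fun x : Inp n => out (bd P ℓ v₀ x r) ≠
            decide (∃ j, qf (blk M e' x j) = 0))) ∪
          (univ.filter fun x : Inp n => ∃ j, qf (blk M e' x j) = 0) := by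
      intro x _
      rw [mem_union, mem_union, mem_filter, mem_filter, mem_filter]
      by_cases ha : out (bd P ℓ v₀ x r) = false
      · exact Or.inl (Or.inl ⟨mem_univ _, ha⟩)
      · by_cases hb : ∃ j, qf (blk M e' x j) = 0
        · exact Or.inr ⟨mem_univ _, hb⟩
        · refine Or.inl (Or.inr ⟨mem_univ _, ?_⟩)
          rw [decide_eq_false hb]
          exact ha
    have h4 := (card_le_card h3).trans ((card_union_le _ _).trans
      (Nat.add_le_add_right (card_union_le _ _) _))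
    rw [card_univ, Fintype.card_fun, Fintype.card_bool, Fintype.card_fin, ← herr'] at h4
    exact h4
  obtain ⟨Sr, hSr⟩ : ∃ Sr, Sr = (univ.filter fun x : Inp n => out (bd P ℓ v₀ x r) = false).card :=
    ⟨_, rfl⟩
  obtain ⟨G, hG⟩ : ∃ G, G = (univ.filter fun x : Inp n => ∃ j, qf (blk M e' x j) = 0).card :=
    ⟨_, rfl⟩
  rw [← hSr, ← hG] at h2
  rw [← hG] at hzero
  rw [← hSr] at hcount
  obtain ⟨I, hI⟩ : ∃ I, I = Nat.card W ^ (r + 1) * (Idx n e).card := ⟨_, rfl⟩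
  have h5 : 2 ^ Δ * Sr ≤ 2 * Lc * (2 ^ Δ * (32 * err) + 2 * (I * 2 ^ n)) := by
    refine hcount.trans (Nat.mul_le_mul_left _ ?_)
    have e1 : Nat.card W ^ (r + 1) * (2 * ((Idx n e).card * 2 ^ n)) = 2 * (I * 2 ^ n) := by
      rw [hI]
      ring
    rw [e1]
    exact Nat.add_le_add_right (Nat.mul_le_mul_left _ (Nat.mul_le_mul_left _ h1)) _
  -- arithmetic
  have hT : (0 : ℝ) < 2 ^ n := by positivity
  have hd : (0 : ℝ) < 2 ^ Δ := by positivity
  have r1 : (512 : ℝ) * Lc * err ≤ 2 ^ n := by exact_mod_cast herr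
  have r2 : (2 : ℝ) ^ n ≤ Sr + err + G := by exact_mod_cast h2
  have r3 : (2 : ℝ) * G ≤ 2 ^ n := by exact_mod_cast hzero
  have r4 : (2 : ℝ) ^ Δ * Sr ≤ 2 * Lc * (2 ^ Δ * (32 * err) + 2 * (I * 2 ^ n)) := by
    exact_mod_cast h5
  have r5 : (1 : ℝ) ≤ Lc := by exact_mod_cast hLc1
  have r6 : (0 : ℝ) ≤ err := Nat.cast_nonneg _
  have r7 : (512 : ℝ) * err ≤ 2 ^ n := by nlinarith
  have r8 : (2 : ℝ) ^ n / 4 ≤ Sr - 64 * (Lc * err) := by nlinarith
  have r9 : (2 : ℝ) ^ Δ * (2 ^ n / 4) ≤ 4 * Lc * I * 2 ^ n := by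
    calc (2 : ℝ) ^ Δ * (2 ^ n / 4) ≤ 2 ^ Δ * (Sr - 64 * (Lc * err)) :=
          mul_le_mul_of_nonneg_left r8 hd.le
      _ = 2 ^ Δ * Sr - 2 * Lc * (2 ^ Δ * (32 * err)) := by ring
      _ ≤ 2 * Lc * (2 ^ Δ * (32 * err) + 2 * (I * 2 ^ n)) - 2 * Lc * (2 ^ Δ * (32 * err)) := by
        linarith
      _ = 4 * Lc * I * 2 ^ n := by ring
  have r10 : (2 : ℝ) ^ Δ ≤ 16 * Lc * I := by
    have : (2 : ℝ) ^ Δ * 2 ^ n ≤ (16 * Lc * I) * 2 ^ n := by linarith
    exact le_of_mul_le_mul_right this hT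
  have r11 : 2 ^ Δ ≤ 16 * Lc * I := by exact_mod_cast r10
  rw [hI] at r11
  calc 2 ^ Δ ≤ 16 * Lc * (Nat.card W ^ (r + 1) * (Idx n e).card) := r11
    _ = _ := by ring

end Pool.Agent.L0h32.LT2
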